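import Mathlib

/-!
A small clause checker meant to be run by the kernel.

A clause is a bit mask: bit `b < N` is the positive literal of variable `b`, bit `N + b` the
negative one.  The clause data base is a binary tree of codes.
-/

namespace Pool.Agent.LGam

/-- Binary tree of naturals. -/
inductive Tr : Type where
  | leaf : ℕ → Tr
  | node : Tr → Tr → Tr

/-- Entry number `i` of the tree (lowest bit first). -/
noncomputable def Tr.get (t : Tr) : ℕ → ℕ :=
  Tr.rec (motive := fun _ => ℕ → ℕ) (fun c _ => c)
    (fun _ _ ihl ihr i =>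
      Bool.rec (motive := fun _ => ℕ) (ihr (Nat.shiftRight i (nat_lit 1)))
        (ihl (Nat.shiftRight i (nat_lit 1)))
        (Nat.beq (Nat.land i (nat_lit 1)) (nat_lit 0))) t

/-- last part of a propagation step -/
noncomputable def goR (N : ℕ) (ih : ℕ → ℕ → Bool) (hs F R : ℕ) : Bool :=
  Bool.rec (motive := fun _ => Bool)
    (Bool.rec (motive := fun _ => Bool) false
      (ih (Nat.shiftRight hs (nat_lit 16))
        (Nat.lor F (Nat.lor (Nat.shiftRight R N) (Nat.shiftLeft R N))))
      (Nat.beq (Nat.land R (Nat.sub R (nat_lit 1))) (nat_lit 0)))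
    true
    (Nat.beq R (nat_lit 0))

/-- one resolution chain (unit propagation with hints).  `db` gives the masks, `hs` is the
packed list of hints (16 bits each), `F` is the mask of literals known to be false. -/
noncomputable def go (N : ℕ) (db : ℕ → ℕ) (i : ℕ) (fuel : ℕ) : ℕ → ℕ → Bool :=
  Nat.rec (motive := fun _ => ℕ → ℕ → Bool) (fun _ _ => false)
    (fun _ ih hs F =>
      Nat.rec (motive := fun _ => Bool) false
        (fun m _ => goR N ih hs F (Nat.xor (db m) (Nat.land (db m) F)))
        (Nat.sub i (Nat.land hs (nat_lit 65535)))) fuel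

/-- conjunction, first argument second -/
noncomputable def nextC (a b : Bool) : Bool := Bool.rec (motive := fun _ => Bool) false a b

/-- Check all the lemmas of a list; entry `hs` at place `i` is the hint list of lemma `i`. -/
noncomputable def checkList (N : ℕ) (db : ℕ → ℕ) (l : List ℕ) : ℕ → Bool :=
  List.rec (motive := fun _ => ℕ → Bool) (fun _ => true)
    (fun hs _ ih i =>
      Nat.rec (motive := fun _ => Bool) false
        (fun m _ =>
          nextC (ih (Nat.succ (Nat.succ m)))
            (go N db (Nat.succ m) (nat_lit 1000) hs (db (Nat.succ m)))) i) l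

/-- `φ` interprets the literals. -/
structure Val (N : ℕ) (φ : ℕ → Prop) : Prop where
  neg : ∀ b, b < N → (φ (b + N) ↔ ¬ φ b)
  big : ∀ b, N + N ≤ b → ¬ φ b

/-- the clause with mask `m` holds -/
def Sat (φ : ℕ → Prop) (m : ℕ) : Prop := ∃ b, m.testBit b = true ∧ φ b

/-- all the literals of the mask are false -/
def Fls (φ : ℕ → Prop) (F : ℕ) : Prop := ∀ b, F.testBit b = true → ¬ φ b

theorem unique_bit {R b c : ℕ} (h : R &&& (R - 1) = 0) (hb : R.testBit b = true)
    (hc : R.testBit c = true) : b = c := by
  have h0 : R ≠ 0 := by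
    rintro rfl
    simp at hb
  obtain ⟨k, hk⟩ := (Nat.and_sub_one_eq_zero_iff_isPowerOfTwo h0).1 h
  subst hk
  rw [Nat.testBit_two_pow] at hb hc
  simp at hb hc
  omega

theorem step_sound {N : ℕ} {φ : ℕ → Prop} (hv : Val N φ) {F D : ℕ} (hF : Fls φ F)
    (hD : Sat φ D) :
    (D ^^^ (D &&& F)) ≠ 0 ∧
    ((D ^^^ (D &&& F)) &&& ((D ^^^ (D &&& F)) - 1) = 0 →
      Fls φ (F ||| (((D ^^^ (D &&& F)) >>> N) ||| ((D ^^^ (D &&& F)) <<< N)))) := by
  obtain ⟨b, hb, hφ⟩ := hD
  have hbF : F.testBit b = false := by
    by_contra h
    exact hF b (by simpa using h) hφ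
  set R := D ^^^ (D &&& F) with hR
  have hRb : R.testBit b = true := by
    rw [hR, Nat.testBit_xor, Nat.testBit_and, hb, hbF]; rfl
  refine ⟨?_, ?_⟩
  · intro h0
    rw [h0] at hRb
    simp at hRb
  · intro hp c hc
    have hb2 : b < N + N := by
      by_contra h
      exact hv.big b (by omega) hφ
    rw [Nat.testBit_or, Nat.testBit_or, Nat.testBit_shiftRight, Nat.testBit_shiftLeft] at hc
    simp only [Bool.or_eq_true, Bool.and_eq_true, decide_eq_true_eq] at hc
    rcases hc with hc | hc | hc
    · exact hF c hc
    · have := unique_bit hp hRb hc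
      have hcN : c < N := by omega
      have h1 := (hv.neg c hcN)
      have h2 : c + N = b := by omega
      rw [h2] at h1
      exact h1.1 hφ
    · have := unique_bit hp hRb hc.2
      have h2 : c = b + N := by omega
      by_cases hbN : b < N
      · rw [h2]
        intro h3
        exact (hv.neg b hbN).1 h3 hφ
      · exact hv.big c (by omega)

theorem go_sound {N : ℕ} {φ : ℕ → Prop} (hv : Val N φ) {db : ℕ → ℕ} {i : ℕ}
    (hdb : ∀ m, m < i → Sat φ (db m)) :
    ∀ (fuel hs F : ℕ), go N db i fuel hs F = true → Fls φ F → False := by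
  intro fuel
  induction fuel with
  | zero =>
    intro hs F h
    exact absurd h (by simp [go])
  | succ fuel ih =>
    intro hs F h hF
    have e : go N db i (fuel + 1) hs F = Nat.rec (motive := fun _ => Bool) false
        (fun m _ => goR N (go N db i fuel) hs F (Nat.xor (db m) (Nat.land (db m) F)))
        (Nat.sub i (Nat.land hs 65535)) := rfl
    rw [e] at h
    rcases hk : Nat.sub i (Nat.land hs 65535) with _ | m
    · rw [hk] at h
      exact absurd h (by simp)
    · rw [hk] at h
      have hm : m < i := by
        have h1 : i - (Nat.land hs 65535) = m + 1 := hk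
        omega
      obtain ⟨h1, h2⟩ := step_sound hv hF (hdb m hm)
      have e2 : goR N (go N db i fuel) hs F (Nat.xor (db m) (Nat.land (db m) F)) =
        bif (Nat.beq (db m ^^^ (db m &&& F)) 0) then true else
          bif (Nat.beq ((db m ^^^ (db m &&& F)) &&& ((db m ^^^ (db m &&& F)) - 1)) 0) then
            go N db i fuel (hs >>> 16) (F ||| (((db m ^^^ (db m &&& F)) >>> N) |||
              ((db m ^^^ (db m &&& F)) <<< N)))
          else false := by
        have key : ∀ (R : ℕ), goR N (go N db i fuel) hs F R =
          bif (Nat.beq R 0) then true else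
          bif (Nat.beq (R &&& (R - 1)) 0) then
            go N db i fuel (hs >>> 16) (F ||| ((R >>> N) ||| (R <<< N)))
          else false := by
          intro R
          unfold goR
          have e3 : Nat.land R (Nat.sub R 1) = R &&& (R - 1) := rfl
          have e4 : ∀ x y, Nat.lor x y = x ||| y := fun _ _ => rfl
          have e5 : ∀ x y, Nat.shiftRight x y = x >>> y := fun _ _ => rfl
          have e6 : ∀ x y, Nat.shiftLeft x y = x <<< y := fun _ _ => rfl
          rw [e3, e4, e4, e5, e5, e6]
          cases Nat.beq R 0 <;> cases Nat.beq (R &&& (R - 1)) 0 <;> rfl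
        exact key _
      have h' : goR N (go N db i fuel) hs F (Nat.xor (db m) (Nat.land (db m) F)) = true := h
      rw [e2] at h'
      have hb0 : Nat.beq (db m ^^^ (db m &&& F)) 0 = false := by
        rw [Bool.eq_false_iff]
        intro h3
        exact h1 (Nat.eq_of_beq_eq_true h3)
      rw [hb0, cond_false] at h'
      rcases hb1 : Nat.beq ((db m ^^^ (db m &&& F)) &&& ((db m ^^^ (db m &&& F)) - 1)) 0 with _ | _
      · rw [hb1] at h'
        exact absurd h' (by simp)
      · rw [hb1, cond_true] at h'
        exact ih _ _ h' (h2 (Nat.eq_of_beq_eq_true hb1))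

theorem checkList_sound {N : ℕ} {φ : ℕ → Prop} (hv : Val N φ) {db : ℕ → ℕ} (l : List ℕ) :
    ∀ i, checkList N db l i = true → (∀ m, m < i → Sat φ (db m)) →
      ∀ m, m < i + l.length → Sat φ (db m) := by
  induction l with
  | nil =>
    intro i _ h m hm
    exact h m (by simpa using hm)
  | cons hs l ih =>
    intro i h hlt m hm
    rcases i with _ | i
    · have e : checkList N db (hs :: l) 0 = false := rfl
      rw [e] at h
      exact absurd h (by simp)
    · have e : checkList N db (hs :: l) (i + 1) =
        bif go N db (i + 1) 1000 hs (db (i + 1)) then checkList N db l (i + 1 + 1) else false := by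
        have : checkList N db (hs :: l) (i + 1) = Bool.rec (motive := fun _ => Bool) false
          (checkList N db l (i + 1 + 1)) (go N db (i + 1) 1000 hs (db (i + 1))) := rfl
        rw [this]
        cases go N db (i + 1) 1000 hs (db (i + 1)) <;> rfl
      rw [e] at h
      rcases hg : go N db (i + 1) 1000 hs (db (i + 1)) with _ | _
      · rw [hg] at h
        exact absurd h (by simp)
      · rw [hg, cond_true] at h
        refine ih (i + 1 + 1) h ?_ m (by simp at hm; omega)
        intro m' hm'
        by_cases hlt' : m' < i + 1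
        · exact hlt m' hlt'
        · have : m' = i + 1 := by omega
          subst this
          by_contra hns
          refine go_sound hv hlt 1000 hs _ hg ?_
          intro b hb hφ
          exact hns ⟨b, hb, hφ⟩

end Pool.Agent.LGam
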