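import Mathlib

/-!
Intersection graphs of segments, of grid paths with at most one bend, and of L- and
Gamma-shapes.
-/

namespace Pool.Agent.LGam

/-- The family `S` of subsets of the plane represents the graph `G`: distinct vertices are
adjacent exactly when their sets meet. -/
def Represents {V : Type} (G : SimpleGraph V) (S : V → Set (ℝ × ℝ)) : Prop :=
  ∀ u v : V, u ≠ v → (G.Adj u v ↔ (S u ∩ S v).Nonempty)

/-- A straight-line segment with two distinct endpoints. -/
def IsSeg (P : Set (ℝ × ℝ)) : Prop :=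
  ∃ p q : ℝ × ℝ, p ≠ q ∧ P = segment ℝ p q

/-- A path in the integer grid with at most one bend: the union of the horizontal segment from
the grid point `(a, b)` to the grid point `(c, b)` and of the vertical segment from `(a, b)` to
the grid point `(a, d)`; not both are reduced to a point. -/
def IsGridPath (P : Set (ℝ × ℝ)) : Prop :=
  ∃ a b c d : ℤ, (a ≠ c ∨ b ≠ d) ∧
    P = segment ℝ ((a : ℝ), (b : ℝ)) ((c : ℝ), (b : ℝ)) ∪
      segment ℝ ((a : ℝ), (b : ℝ)) ((a : ℝ), (d : ℝ))

/-- An L-shape: a horizontal segment going right from `(a, b)` and a vertical segment going up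
from `(a, b)`. -/
def IsL (P : Set (ℝ × ℝ)) : Prop :=
  ∃ a b c d : ℝ, a < c ∧ b < d ∧ P = segment ℝ (a, b) (c, b) ∪ segment ℝ (a, b) (a, d)

/-- A Gamma-shape: a horizontal segment going right from `(a, b)` and a vertical segment going
down from `(a, b)`. -/
def IsGamma (P : Set (ℝ × ℝ)) : Prop :=
  ∃ a b c d : ℝ, a < c ∧ d < b ∧ P = segment ℝ (a, b) (c, b) ∪ segment ℝ (a, b) (a, d)

/-- `G` is a segment intersection graph. -/
def InSEG {V : Type} (G : SimpleGraph V) : Prop :=
  ∃ S : V → Set (ℝ × ℝ), (∀ v, IsSeg (S v)) ∧ Represents G S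

/-- `G` is a `B₁`-VPG graph. -/
def InB1VPG {V : Type} (G : SimpleGraph V) : Prop :=
  ∃ S : V → Set (ℝ × ℝ), (∀ v, IsGridPath (S v)) ∧ Represents G S

/-- `G` is an {L, Gamma}-graph. -/
def InLGamma {V : Type} (G : SimpleGraph V) : Prop :=
  ∃ S : V → Set (ℝ × ℝ), (∀ v, IsL (S v) ∨ IsGamma (S v)) ∧ Represents G S

end Pool.Agent.LGam
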