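import Pool.Agent.LGam.Model
import Pool.Agent.LGam.Chunk0
import Pool.Agent.LGam.Chunk1
import Pool.Agent.LGam.Chunk2

/-!
The base graph has no order structure, hence its blow-up is not an {L, Gamma}-graph.
-/

namespace Pool.Agent.LGam

theorem last_zero : dbf 15202 = 0 := by
  have h : Nat.beq (dbf 15202) 0 = true := by decide +kernel
  exact Nat.eq_of_beq_eq_true h

theorem no_sol {T Y : ℕ → ℕ → Prop} {S : ℕ → Prop} (h : Sol nn (adjN AA) T Y S)
    (hY : Y 5 0) : False := by
  have hv : Val NN (lt nn (adjN AA) T Y S) := lt_val nn (adjN AA) T Y S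
  have s0 : ∀ m, m < 5351 → Sat (lt nn (adjN AA) T Y S) (dbf m) :=
    base_sound h (by decide) (by decide) (by decide) (by decide) hY inputs_ok
  have s1 : ∀ m, m < 6351 → Sat (lt nn (adjN AA) T Y S) (dbf m) := by
    have := checkList_sound hv c0 5351 c0_ok s0
    rw [c0_len] at this
    exact this
  have s2 : ∀ m, m < 7351 → Sat (lt nn (adjN AA) T Y S) (dbf m) := by
    have := checkList_sound hv c1 6351 c1_ok s1
    rw [c1_len] at this
    exact this
  have s3 : ∀ m, m < 8351 → Sat (lt nn (adjN AA) T Y S) (dbf m) := by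
    have := checkList_sound hv c2 7351 c2_ok s2
    rw [c2_len] at this
    exact this
  have s4 : ∀ m, m < 9351 → Sat (lt nn (adjN AA) T Y S) (dbf m) := by
    have := checkList_sound hv c3 8351 c3_ok s3
    rw [c3_len] at this
    exact this
  have s5 : ∀ m, m < 10351 → Sat (lt nn (adjN AA) T Y S) (dbf m) := by
    have := checkList_sound hv c4 9351 c4_ok s4
    rw [c4_len] at this
    exact this
  have s6 : ∀ m, m < 11351 → Sat (lt nn (adjN AA) T Y S) (dbf m) := by
    have := checkList_sound hv c5 10351 c5_ok s5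
    rw [c5_len] at this
    exact this
  have s7 : ∀ m, m < 12351 → Sat (lt nn (adjN AA) T Y S) (dbf m) := by
    have := checkList_sound hv c6 11351 c6_ok s6
    rw [c6_len] at this
    exact this
  have s8 : ∀ m, m < 13351 → Sat (lt nn (adjN AA) T Y S) (dbf m) := by
    have := checkList_sound hv c7 12351 c7_ok s7
    rw [c7_len] at this
    exact this
  have s9 : ∀ m, m < 14351 → Sat (lt nn (adjN AA) T Y S) (dbf m) := by
    have := checkList_sound hv c8 13351 c8_ok s8
    rw [c8_len] at this
    exact this
  have s10 : ∀ m, m < 15203 → Sat (lt nn (adjN AA) T Y S) (dbf m) := by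
    have := checkList_sound hv c9 14351 c9_ok s9
    rw [c9_len] at this
    exact this
  obtain ⟨b, hb, _⟩ := s10 15202 (by decide)
  rw [last_zero] at hb
  simp at hb

theorem GG_not : ¬ InLGamma GG := by
  intro h
  obtain ⟨T, Y, S, hS, hY⟩ := exists_sol_above (v := 5) (w := 0) (by decide) (by decide)
    (by decide) (sol_of_rep adj_symm adj_irr deg_check h)
  exact no_sol hS hY

end Pool.Agent.LGam
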