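import Pool.Agent.LGam.Rep

/-!
Segment and grid path representations of blow-ups from robust integer representations of the
base graph.
-/

namespace Pool.Agent.LGam

/-- orientation of `z` with respect to the line through `p` and `q` -/
def ori (p q z : ℝ × ℝ) : ℝ := (q.1 - p.1) * (z.2 - p.2) - (q.2 - p.2) * (z.1 - p.1)

theorem seg_disjoint {p q p' q' : ℝ × ℝ} {σ : ℝ} (h1 : 0 < σ * ori p q p')
    (h2 : 0 < σ * ori p q q') : ¬ (segment ℝ p q ∩ segment ℝ p' q').Nonempty := by
  rintro ⟨z, ⟨a, b, ha, hb, hab, rfl⟩, ⟨c, d, hc, hd, hcd, hz⟩⟩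
  have e1 : c * p'.1 + d * q'.1 = a * p.1 + b * q.1 := by
    have := congrArg Prod.fst hz
    simpa using this
  have e2 : c * p'.2 + d * q'.2 = a * p.2 + b * q.2 := by
    have := congrArg Prod.snd hz
    simpa using this
  have hpos : 0 < c * (σ * ori p q p') + d * (σ * ori p q q') := by
    rcases hc.eq_or_lt with h | h
    · have : d = 1 := by linarith
      rw [← h, this]
      simpa using h2
    · have := mul_pos h h1
      have := mul_nonneg hd h2.le
      linarith
  have hzero : c * (σ * ori p q p') + d * (σ * ori p q q') = 0 := by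
    unfold ori
    have ea : a = 1 - b := by linarith
    have ec : c = 1 - d := by linarith
    subst ea
    subst ec
    linear_combination (σ * (q.1 - p.1)) * e2 - (σ * (q.2 - p.2)) * e1
  linarith

theorem seg_meet {p q p' q' : ℝ × ℝ} {σ τ : ℝ} (h1 : 0 < σ * ori p q p')
    (h2 : σ * ori p q q' < 0) (h3 : 0 < τ * ori p' q' p) (h4 : τ * ori p' q' q < 0) :
    (segment ℝ p q ∩ segment ℝ p' q').Nonempty := by
  have hσ : σ ≠ 0 := by rintro rfl; simp at h1
  have hτ : τ ≠ 0 := by rintro rfl; simp at h3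
  set A := ori p q p' with hA
  set B := ori p q q' with hB
  set C := ori p' q' p with hC
  set D := ori p' q' q with hD
  have hAB : A - B ≠ 0 := by
    intro h
    have : σ * A = σ * B := by rw [sub_eq_zero.1 h]
    linarith
  have hCD : C - D ≠ 0 := by
    intro h
    have : τ * C = τ * D := by rw [sub_eq_zero.1 h]
    linarith
  have hl : 0 ≤ A / (A - B) ∧ A / (A - B) ≤ 1 := by
    have e : A / (A - B) = (σ * A) / (σ * A - σ * B) := by
      rw [← mul_sub, mul_div_mul_left _ _ hσ]
    rw [e]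
    constructor
    · apply div_nonneg <;> linarith
    · rw [div_le_one (by linarith)]; linarith
  have hm : 0 ≤ C / (C - D) ∧ C / (C - D) ≤ 1 := by
    have e : C / (C - D) = (τ * C) / (τ * C - τ * D) := by
      rw [← mul_sub, mul_div_mul_left _ _ hτ]
    rw [e]
    constructor
    · apply div_nonneg <;> linarith
    · rw [div_le_one (by linarith)]; linarith
  have hdet : A - B = -(C - D) := by
    rw [hA, hB, hC, hD]; unfold ori; ring
  refine ⟨(1 - C / (C - D)) • p + (C / (C - D)) • q, ⟨1 - C / (C - D), C / (C - D),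
    by linarith [hm.2], hm.1, by ring, rfl⟩, ⟨1 - A / (A - B), A / (A - B),
    by linarith [hl.2], hl.1, by ring, ?_⟩⟩
  rw [hdet, div_neg]
  have key1 : (C - D) * p'.1 + A * p'.1 - A * q'.1 = (C - D) * p.1 - C * p.1 + C * q.1 := by
    rw [hA, hC, hD]; unfold ori; ring
  have key2 : (C - D) * p'.2 + A * p'.2 - A * q'.2 = (C - D) * p.2 - C * p.2 + C * q.2 := by
    rw [hA, hC, hD]; unfold ori; ring
  ext
  · simp only [Prod.fst_add, Prod.smul_fst, smul_eq_mul]
    field_simp
    linarith [key1]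
  · simp only [Prod.snd_add, Prod.smul_snd, smul_eq_mul]
    field_simp
    linarith [key2]

/-- integer orientation -/
def ioi (x1 y1 x2 y2 u v : ℤ) : ℤ := (x2 - x1) * (v - y1) - (y2 - y1) * (u - x1)

/-- robust crossing / separation test for the segments of the base graph -/
def segOK (k : ℕ) (adj : ℕ → ℕ → Bool) (x1 y1 x2 y2 : ℕ → ℤ) (i j : ℕ) : Bool :=
  let a := ioi (x1 i) (y1 i) (x2 i) (y2 i) (x1 j) (y1 j)
  let b := ioi (x1 i) (y1 i) (x2 i) (y2 i) (x2 j) (y2 j)
  let c := ioi (x1 j) (y1 j) (x2 j) (y2 j) (x1 i) (y1 i)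
  let d := ioi (x1 j) (y1 j) (x2 j) (y2 j) (x2 i) (y2 i)
  let m := |y2 i - y1 i| * (k : ℤ)
  let m' := |y2 j - y1 j| * (k : ℤ)
  if adj i j then
    ((decide (m < a) && decide (b < -m)) || (decide (m < b) && decide (a < -m))) &&
    ((decide (m' < c) && decide (d < -m')) || (decide (m' < d) && decide (c < -m')))
  else if i = j then decide (y1 i ≠ y2 i)
  else
    (decide (m < a) && decide (m < b)) || (decide (a < -m) && decide (b < -m)) ||
    (decide (m' < c) && decide (m' < d)) || (decide (c < -m') && decide (d < -m'))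

theorem ori_shift (x1 y1 x2 y2 u v : ℤ) (a b : ℝ) :
    ori ((x1 : ℝ) + a, (y1 : ℝ)) ((x2 : ℝ) + a, (y2 : ℝ)) ((u : ℝ) + b, (v : ℝ)) =
      (ioi x1 y1 x2 y2 u v : ℝ) - ((y2 : ℝ) - y1) * (b - a) := by
  unfold ori ioi
  push_cast
  ring

theorem ori_pos {x1 y1 x2 y2 u v : ℤ} {a b : ℝ} {k : ℕ} (hab : |b - a| ≤ k)
    (h : |y2 - y1| * (k : ℤ) < ioi x1 y1 x2 y2 u v) :
    0 < ori ((x1 : ℝ) + a, (y1 : ℝ)) ((x2 : ℝ) + a, (y2 : ℝ)) ((u : ℝ) + b, (v : ℝ)) := by
  rw [ori_shift]
  have h1 : ((|y2 - y1| * (k : ℤ) : ℤ) : ℝ) < (ioi x1 y1 x2 y2 u v : ℝ) := by exact_mod_cast h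
  push_cast at h1
  have h2 : ((y2 : ℝ) - y1) * (b - a) ≤ |(y2 : ℝ) - y1| * k := by
    calc ((y2 : ℝ) - y1) * (b - a) ≤ |((y2 : ℝ) - y1) * (b - a)| := le_abs_self _
      _ = |(y2 : ℝ) - y1| * |b - a| := abs_mul _ _
      _ ≤ |(y2 : ℝ) - y1| * k := mul_le_mul_of_nonneg_left hab (abs_nonneg _)
  linarith

theorem ori_neg {x1 y1 x2 y2 u v : ℤ} {a b : ℝ} {k : ℕ} (hab : |b - a| ≤ k)
    (h : ioi x1 y1 x2 y2 u v < -(|y2 - y1| * (k : ℤ))) :
    ori ((x1 : ℝ) + a, (y1 : ℝ)) ((x2 : ℝ) + a, (y2 : ℝ)) ((u : ℝ) + b, (v : ℝ)) < 0 := by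
  rw [ori_shift]
  have h1 : (ioi x1 y1 x2 y2 u v : ℝ) < ((-(|y2 - y1| * (k : ℤ)) : ℤ) : ℝ) := by exact_mod_cast h
  push_cast at h1
  have h2 : -(|(y2 : ℝ) - y1| * k) ≤ ((y2 : ℝ) - y1) * (b - a) := by
    have : |((y2 : ℝ) - y1) * (b - a)| ≤ |(y2 : ℝ) - y1| * k := by
      rw [abs_mul]
      exact mul_le_mul_of_nonneg_left hab (abs_nonneg _)
    exact (abs_le.1 this).1
  linarith

section
variable {n k : ℕ} {adj : ℕ → ℕ → Bool}
  (hs : ∀ i j, i < n → j < n → adj i j = adj j i) (hi : ∀ i, i < n → adj i i = false)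

theorem blow_seg (x1 y1 x2 y2 : ℕ → ℤ)
    (hc : ∀ i < n, ∀ j < n, segOK k adj x1 y1 x2 y2 i j = true) :
    InSEG (blow n k adj hs hi) := by
  have hy : ∀ i < n, y1 i ≠ y2 i := by
    intro i h
    have := hc i h i h
    unfold segOK at this
    rw [hi i h] at this
    simpa using this
  refine ⟨fun p => segment ℝ ((x1 p.1 : ℝ) + ((p.2 : ℕ) : ℝ), (y1 p.1 : ℝ))
    ((x2 p.1 : ℝ) + ((p.2 : ℕ) : ℝ), (y2 p.1 : ℝ)), ?_, ?_⟩
  · intro p
    refine ⟨_, _, ?_, rfl⟩
    intro h
    have h2 := congrArg Prod.snd h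
    have h3 : (y1 p.1 : ℝ) = (y2 p.1 : ℝ) := h2
    exact hy p.1 p.1.2 (by exact_mod_cast h3)
  · rintro ⟨i, a⟩ ⟨j, b⟩ hne
    have hab : |((b : ℕ) : ℝ) - ((a : ℕ) : ℝ)| ≤ k := by
      have h1 : ((a : ℕ) : ℝ) < k := by exact_mod_cast a.2
      have h2 : ((b : ℕ) : ℝ) < k := by exact_mod_cast b.2
      have h3 : (0 : ℝ) ≤ ((a : ℕ) : ℝ) := Nat.cast_nonneg _
      have h4 : (0 : ℝ) ≤ ((b : ℕ) : ℝ) := Nat.cast_nonneg _
      rw [abs_le]
      constructor <;> linarith
    have hba : |((a : ℕ) : ℝ) - ((b : ℕ) : ℝ)| ≤ k := by rw [abs_sub_comm]; exact hab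
    have hij := hc i i.2 j j.2
    unfold segOK at hij
    show adj i j = true ↔ _
    rcases hadj : adj i j with _ | _
    · rw [hadj] at hij
      simp only [Bool.false_eq_true, false_iff]
      by_cases hijeq : i = j
      · -- parallel copies
        subst hijeq
        have hab' : a ≠ b := by
          rintro rfl
          exact hne rfl
        have hab'' : ((a : ℕ) : ℝ) ≠ ((b : ℕ) : ℝ) := by
          intro h
          apply hab'
          exact Fin.ext (by exact_mod_cast h)
        have hyi : ((y2 i : ℝ) - y1 i) ≠ 0 := by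
          intro h
          apply hy i i.2
          have : (y1 i : ℝ) = y2 i := by linarith
          exact_mod_cast this
        have hval : ∀ u v : ℤ, ioi (x1 i) (y1 i) (x2 i) (y2 i) u v = 0 →
            ori ((x1 i : ℝ) + ((a : ℕ) : ℝ), (y1 i : ℝ)) ((x2 i : ℝ) + ((a : ℕ) : ℝ), (y2 i : ℝ))
              ((u : ℝ) + ((b : ℕ) : ℝ), (v : ℝ)) =
            - (((y2 i : ℝ) - y1 i) * (((b : ℕ) : ℝ) - ((a : ℕ) : ℝ))) := by
          intro u v h
          rw [ori_shift, h]
          push_cast
          ring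
        have hne0 : (((y2 i : ℝ) - y1 i) * (((b : ℕ) : ℝ) - ((a : ℕ) : ℝ))) ≠ 0 :=
          mul_ne_zero hyi (sub_ne_zero.2 hab''.symm)
        have hv1 := hval (x1 i) (y1 i) (by unfold ioi; ring)
        have hv2 := hval (x2 i) (y2 i) (by unfold ioi; ring)
        set c := (((y2 i : ℝ) - y1 i) * (((b : ℕ) : ℝ) - ((a : ℕ) : ℝ))) with hcdef
        apply seg_disjoint (σ := -c)
        · rw [hv1]
          have := mul_self_pos.2 hne0
          nlinarith
        · rw [hv2]
          have := mul_self_pos.2 hne0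
          nlinarith
      · have hijn : (i : ℕ) ≠ (j : ℕ) := fun h => hijeq (Fin.ext h)
        simp only [Bool.false_eq_true, if_false, hijn] at hij
        simp only [Bool.or_eq_true, Bool.and_eq_true, decide_eq_true_eq] at hij
        rcases hij with ((⟨h1, h2⟩ | ⟨h1, h2⟩) | ⟨h1, h2⟩) | ⟨h1, h2⟩
        · apply seg_disjoint (σ := 1)
          · rw [one_mul]; exact ori_pos hab h1
          · rw [one_mul]; exact ori_pos hab h2
        · apply seg_disjoint (σ := -1)
          · have := ori_neg hab h1; linarith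
          · have := ori_neg hab h2; linarith
        · rw [Set.inter_comm]
          apply seg_disjoint (σ := 1)
          · rw [one_mul]; exact ori_pos hba h1
          · rw [one_mul]; exact ori_pos hba h2
        · rw [Set.inter_comm]
          apply seg_disjoint (σ := -1)
          · have := ori_neg hba h1; linarith
          · have := ori_neg hba h2; linarith
    · rw [hadj] at hij
      simp only [true_iff]
      simp only [if_true, Bool.or_eq_true, Bool.and_eq_true, decide_eq_true_eq] at hij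
      obtain ⟨h12, h34⟩ := hij
      have swap : ∀ (p q p' q' : ℝ × ℝ), (segment ℝ q p ∩ segment ℝ q' p').Nonempty →
          (segment ℝ p q ∩ segment ℝ p' q').Nonempty := by
        intro p q p' q' h
        rw [segment_symm ℝ p q, segment_symm ℝ p' q']
        exact h
      rcases h12 with ⟨h1, h2⟩ | ⟨h1, h2⟩ <;> rcases h34 with ⟨h3, h4⟩ | ⟨h3, h4⟩
      · exact seg_meet (σ := 1) (τ := 1) (by rw [one_mul]; exact ori_pos hab h1)
          (by rw [one_mul]; exact ori_neg hab h2) (by rw [one_mul]; exact ori_pos hba h3)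
          (by rw [one_mul]; exact ori_neg hba h4)
      · exact seg_meet (σ := 1) (τ := -1) (by rw [one_mul]; exact ori_pos hab h1)
          (by rw [one_mul]; exact ori_neg hab h2)
          (by have := ori_neg hba h4; linarith) (by have := ori_pos hba h3; linarith)
      · exact seg_meet (σ := -1) (τ := 1) (by have := ori_neg hab h2; linarith)
          (by have := ori_pos hab h1; linarith) (by rw [one_mul]; exact ori_pos hba h3)
          (by rw [one_mul]; exact ori_neg hba h4)
      · exact seg_meet (σ := -1) (τ := -1) (by have := ori_neg hab h2; linarith)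
          (by have := ori_pos hab h1; linarith)
          (by have := ori_neg hba h4; linarith) (by have := ori_pos hba h3; linarith)

end

end Pool.Agent.LGam
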