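import Pool.Agent.LGam.Rep

/-!
Grid path representations of blow-ups from generic grid path representations of the base graph.
-/

namespace Pool.Agent.LGam

theorem mem_hseg' {a b c : ℝ} (p : ℝ × ℝ) :
    p ∈ segment ℝ (a, b) (c, b) ↔ p.2 = b ∧ min a c ≤ p.1 ∧ p.1 ≤ max a c := by
  rw [← Prod.image_mk_segment_left, segment_eq_uIcc]
  constructor
  · rintro ⟨z, hz, rfl⟩
    exact ⟨rfl, hz.1, hz.2⟩
  · rintro ⟨h1, h2, h3⟩
    exact ⟨p.1, ⟨h2, h3⟩, by rw [← h1]⟩

/-- test for a generic grid path representation of the base graph -/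
def b1OK (adj : ℕ → ℕ → Bool) (X Y C D : ℕ → ℤ) (i j : ℕ) : Bool :=
  let cr : ℕ → ℕ → Bool := fun i j => decide (min (X i) (C i) < X j) &&
    decide (X j < max (X i) (C i)) && decide (min (Y j) (D j) < Y i) &&
    decide (Y i < max (Y j) (D j))
  let nc : ℕ → ℕ → Bool := fun i j => decide (X j < min (X i) (C i)) ||
    decide (max (X i) (C i) < X j) || decide (Y i < min (Y j) (D j)) ||
    decide (max (Y j) (D j) < Y i)
  if adj i j then cr i j || cr j i
  else if i = j then decide (X i ≠ C i) && decide (Y i ≠ D i)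
  else nc i j && nc j i && decide (X i ≠ X j) && decide (Y i ≠ Y j)

/-- direction of the shift of the copies -/
def sg (X Y C D : ℤ) : ℤ := if X < C then (if Y < D then 1 else -1) else (if Y < D then -1 else 1)

theorem sg_cases (X Y C D : ℤ) : sg X Y C D = 1 ∨ sg X Y C D = -1 := by
  unfold sg
  split_ifs <;> simp

/-- lifted strict inequality -/
theorem lift_lt {M : ℝ} {s t : ℤ} {u v : ℝ} (hM : 0 ≤ M) (h : s < t) (huv : u - v < M) :
    M * (s : ℝ) + u < M * (t : ℝ) + v := by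
  have h1 : (s : ℝ) + 1 ≤ (t : ℝ) := by exact_mod_cast h
  have h2 := mul_le_mul_of_nonneg_left h1 hM
  linarith

theorem min_shift {M : ℝ} (hM : 0 ≤ M) (s t : ℤ) (u : ℝ) :
    min (M * (s : ℝ) + u) (M * (t : ℝ) + u) = M * ((min s t : ℤ) : ℝ) + u := by
  rw [min_add_add_right, ← mul_min_of_nonneg _ _ hM]
  push_cast
  rfl

theorem max_shift {M : ℝ} (hM : 0 ≤ M) (s t : ℤ) (u : ℝ) :
    max (M * (s : ℝ) + u) (M * (t : ℝ) + u) = M * ((max s t : ℤ) : ℝ) + u := by
  rw [max_add_add_right, ← mul_max_of_nonneg _ _ hM]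
  push_cast
  rfl

section
variable {n k : ℕ} {adj : ℕ → ℕ → Bool}
  (hs : ∀ i j, i < n → j < n → adj i j = adj j i) (hi : ∀ i, i < n → adj i i = false)

theorem blow_b1 (X Y C D : ℕ → ℤ)
    (hc : ∀ i < n, ∀ j < n, b1OK adj X Y C D i j = true) :
    InB1VPG (blow n k adj hs hi) := by
  have hne : ∀ i < n, X i ≠ C i ∧ Y i ≠ D i := by
    intro i h
    have := hc i h i h
    unfold b1OK at this
    rw [hi i h] at this
    simpa using this
  let s : ℕ → ℤ := fun i => sg (X i) (Y i) (C i) (D i)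
  let M : ℤ := 2 * k
  -- integer parameters
  let pa : Fin n × Fin k → ℤ := fun p => M * X p.1 + ((p.2 : ℕ) : ℤ)
  let pb : Fin n × Fin k → ℤ := fun p => M * Y p.1 + s p.1 * ((p.2 : ℕ) : ℤ)
  let pc : Fin n × Fin k → ℤ := fun p => M * C p.1 + ((p.2 : ℕ) : ℤ)
  let pd : Fin n × Fin k → ℤ := fun p => M * D p.1 + s p.1 * ((p.2 : ℕ) : ℤ)
  let H : Fin n × Fin k → Set (ℝ × ℝ) := fun p =>
    segment ℝ ((pa p : ℝ), (pb p : ℝ)) ((pc p : ℝ), (pb p : ℝ))
  let W : Fin n × Fin k → Set (ℝ × ℝ) := fun p =>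
    segment ℝ ((pa p : ℝ), (pb p : ℝ)) ((pa p : ℝ), (pd p : ℝ))
  have hM : (0 : ℝ) ≤ (2 * k : ℝ) := by positivity
  have memH : ∀ (p : Fin n × Fin k) (z : ℝ × ℝ), z ∈ H p ↔
      z.2 = (2 * k : ℝ) * (Y p.1 : ℝ) + (s p.1 : ℝ) * ((p.2 : ℕ) : ℝ) ∧
      (2 * k : ℝ) * ((min (X p.1) (C p.1) : ℤ) : ℝ) + ((p.2 : ℕ) : ℝ) ≤ z.1 ∧
      z.1 ≤ (2 * k : ℝ) * ((max (X p.1) (C p.1) : ℤ) : ℝ) + ((p.2 : ℕ) : ℝ) := by
    intro p z
    have e1 : (pa p : ℝ) = (2 * k : ℝ) * (X p.1 : ℝ) + ((p.2 : ℕ) : ℝ) := by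
      simp only [pa, M]; push_cast; ring
    have e2 : (pb p : ℝ) = (2 * k : ℝ) * (Y p.1 : ℝ) + (s p.1 : ℝ) * ((p.2 : ℕ) : ℝ) := by
      simp only [pb, M]; push_cast; ring
    have e3 : (pc p : ℝ) = (2 * k : ℝ) * (C p.1 : ℝ) + ((p.2 : ℕ) : ℝ) := by
      simp only [pc, M]; push_cast; ring
    show z ∈ segment ℝ ((pa p : ℝ), (pb p : ℝ)) ((pc p : ℝ), (pb p : ℝ)) ↔ _
    rw [mem_hseg', e1, e2, e3, min_shift hM, max_shift hM]
  have memW : ∀ (p : Fin n × Fin k) (z : ℝ × ℝ), z ∈ W p ↔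
      z.1 = (2 * k : ℝ) * (X p.1 : ℝ) + ((p.2 : ℕ) : ℝ) ∧
      (2 * k : ℝ) * ((min (Y p.1) (D p.1) : ℤ) : ℝ) + (s p.1 : ℝ) * ((p.2 : ℕ) : ℝ) ≤ z.2 ∧
      z.2 ≤ (2 * k : ℝ) * ((max (Y p.1) (D p.1) : ℤ) : ℝ) + (s p.1 : ℝ) * ((p.2 : ℕ) : ℝ) := by
    intro p z
    have e1 : (pa p : ℝ) = (2 * k : ℝ) * (X p.1 : ℝ) + ((p.2 : ℕ) : ℝ) := by
      simp only [pa, M]; push_cast; ring
    have e2 : (pb p : ℝ) = (2 * k : ℝ) * (Y p.1 : ℝ) + (s p.1 : ℝ) * ((p.2 : ℕ) : ℝ) := by
      simp only [pb, M]; push_cast; ring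
    have e3 : (pd p : ℝ) = (2 * k : ℝ) * (D p.1 : ℝ) + (s p.1 : ℝ) * ((p.2 : ℕ) : ℝ) := by
      simp only [pd, M]; push_cast; ring
    show z ∈ segment ℝ ((pa p : ℝ), (pb p : ℝ)) ((pa p : ℝ), (pd p : ℝ)) ↔ _
    rw [mem_vseg, e1, e2, e3, min_shift hM, max_shift hM]
  have scase : ∀ i, (s i : ℝ) = 1 ∨ (s i : ℝ) = -1 := by
    intro i
    rcases sg_cases (X i) (Y i) (C i) (D i) with h | h
    · left
      simp only [s, h]; norm_num
    · right
      simp only [s, h]; norm_num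
  -- bounds for the shifts
  have hb0 : ∀ a : Fin k, (0 : ℝ) ≤ ((a : ℕ) : ℝ) ∧ ((a : ℕ) : ℝ) < k := by
    intro a
    exact ⟨Nat.cast_nonneg _, by exact_mod_cast a.2⟩
  have hbx : ∀ a b : Fin k, ((a : ℕ) : ℝ) - ((b : ℕ) : ℝ) < 2 * k := by
    intro a b
    have := hb0 a
    have := hb0 b
    linarith
  have hby : ∀ (i j : ℕ) (a b : Fin k),
      (s i : ℝ) * ((a : ℕ) : ℝ) - (s j : ℝ) * ((b : ℕ) : ℝ) < 2 * k := by
    intro i j a b
    have := hb0 a
    have := hb0 b
    rcases scase i with h | h <;> rcases scase j with h' | h' <;> rw [h, h'] <;> linarith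
  -- crossing
  have cross : ∀ p q : Fin n × Fin k, min (X p.1) (C p.1) < X q.1 → X q.1 < max (X p.1) (C p.1) →
      min (Y q.1) (D q.1) < Y p.1 → Y p.1 < max (Y q.1) (D q.1) → (H p ∩ W q).Nonempty := by
    intro p q h1 h2 h3 h4
    refine ⟨((2 * k : ℝ) * (X q.1 : ℝ) + ((q.2 : ℕ) : ℝ),
      (2 * k : ℝ) * (Y p.1 : ℝ) + (s p.1 : ℝ) * ((p.2 : ℕ) : ℝ)), ?_, ?_⟩
    · rw [memH]
      exact ⟨rfl, (lift_lt hM h1 (hbx _ _)).le, (lift_lt hM h2 (hbx _ _)).le⟩
    · rw [memW]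
      exact ⟨rfl, (lift_lt hM h3 (hby _ _ _ _)).le, (lift_lt hM h4 (hby _ _ _ _)).le⟩
  have noncross : ∀ p q : Fin n × Fin k, (X q.1 < min (X p.1) (C p.1) ∨
      max (X p.1) (C p.1) < X q.1 ∨ Y p.1 < min (Y q.1) (D q.1) ∨
      max (Y q.1) (D q.1) < Y p.1) → ∀ z, z ∈ H p → z ∈ W q → False := by
    intro p q h z hz1 hz2
    rw [memH] at hz1
    rw [memW] at hz2
    obtain ⟨a1, a2, a3⟩ := hz1
    obtain ⟨b1, b2, b3⟩ := hz2
    rw [b1] at a2 a3
    rw [a1] at b2 b3
    rcases h with h | h | h | h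
    · have := lift_lt hM h (hbx q.2 p.2); linarith
    · have := lift_lt hM h (hbx p.2 q.2); linarith
    · have := lift_lt hM h (hby p.1 q.1 p.2 q.2); linarith
    · have := lift_lt hM h (hby q.1 p.1 q.2 p.2); linarith
  -- copies of the same vertex
  have same : ∀ (i : Fin n) (a b : Fin k), a ≠ b → ∀ z, z ∈ H (i, a) → z ∈ W (i, b) → False := by
    intro i a b hab z hz1 hz2
    have hab' : ((a : ℕ) : ℝ) ≠ ((b : ℕ) : ℝ) := by
      intro h
      exact hab (Fin.ext (by exact_mod_cast h))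
    rw [memH] at hz1
    rw [memW] at hz2
    obtain ⟨a1, a2, a3⟩ := hz1
    obtain ⟨b1, b2, b3⟩ := hz2
    rw [b1] at a2 a3
    rw [a1] at b2 b3
    obtain ⟨n1, n2⟩ := hne i i.2
    dsimp only at a1 a2 a3 b1 b2 b3
    rcases lt_or_gt_of_ne n1 with h | h
    · rw [min_eq_left h.le] at a2
      have hlt : ((a : ℕ) : ℝ) < ((b : ℕ) : ℝ) := lt_of_le_of_ne (by linarith) hab'
      rcases lt_or_gt_of_ne n2 with h' | h'
      · have hs1 : (s i : ℝ) = 1 := by
          simp only [s, sg, h, h', if_true]; norm_num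
        rw [min_eq_left h'.le, hs1] at b2
        linarith
      · have hs1 : (s i : ℝ) = -1 := by
          simp only [s, sg, h, if_true, not_lt.2 h'.le, if_false]; norm_num
        rw [max_eq_left h'.le, hs1] at b3
        linarith
    · rw [max_eq_left h.le] at a3
      have hlt : ((b : ℕ) : ℝ) < ((a : ℕ) : ℝ) := lt_of_le_of_ne (by linarith) hab'.symm
      rcases lt_or_gt_of_ne n2 with h' | h'
      · have hs1 : (s i : ℝ) = -1 := by
          simp only [s, sg, not_lt.2 h.le, h', if_true, if_false]; norm_num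
        rw [min_eq_left h'.le, hs1] at b2
        linarith
      · have hs1 : (s i : ℝ) = 1 := by
          simp only [s, sg, not_lt.2 h.le, not_lt.2 h'.le, if_false]; norm_num
        rw [max_eq_left h'.le, hs1] at b3
        linarith
  refine ⟨fun p => H p ∪ W p, ?_, ?_⟩
  · intro p
    refine ⟨pa p, pb p, pc p, pd p, Or.inl ?_, rfl⟩
    intro h
    have h' : M * X p.1 + ((p.2 : ℕ) : ℤ) = M * C p.1 + ((p.2 : ℕ) : ℤ) := h
    have hM0 : M ≠ 0 := by
      have := p.2.2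
      simp only [M]
      omega
    exact (hne p.1 p.1.2).1 (mul_left_cancel₀ hM0 (add_right_cancel h'))
  · rintro ⟨i, a⟩ ⟨j, b⟩ hpq
    have hij := hc i i.2 j j.2
    unfold b1OK at hij
    show adj i j = true ↔ _
    rcases hadj : adj i j with _ | _
    · rw [hadj] at hij
      simp only [Bool.false_eq_true, false_iff]
      rintro ⟨z, hz1, hz2⟩
      by_cases hijeq : i = j
      · subst hijeq
        have hab : a ≠ b := by
          rintro rfl
          exact hpq rfl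
        have hab' : ((a : ℕ) : ℝ) ≠ ((b : ℕ) : ℝ) := by
          intro h
          exact hab (Fin.ext (by exact_mod_cast h))
        rcases hz1 with hz1 | hz1 <;> rcases hz2 with hz2 | hz2
        · rw [memH] at hz1 hz2
          have e := hz1.1.symm.trans hz2.1
          dsimp only at e
          rcases scase i with h | h <;> rw [h] at e
          · exact hab' (by linarith)
          · exact hab' (by linarith)
        · exact same i a b hab z hz1 hz2
        · exact same i b a hab.symm z hz2 hz1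
        · rw [memW] at hz1 hz2
          have e := hz1.1.symm.trans hz2.1
          dsimp only at e
          exact hab' (by linarith)
      · have hijn : (i : ℕ) ≠ (j : ℕ) := fun h => hijeq (Fin.ext h)
        simp only [Bool.false_eq_true, if_false, hijn] at hij
        simp only [Bool.or_eq_true, Bool.and_eq_true, decide_eq_true_eq] at hij
        obtain ⟨⟨⟨c1, c2⟩, c3⟩, c4⟩ := hij
        rcases hz1 with hz1 | hz1 <;> rcases hz2 with hz2 | hz2
        · rw [memH] at hz1 hz2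
          have e := hz1.1.symm.trans hz2.1
          dsimp only at e
          rcases lt_or_gt_of_ne c4 with h | h
          · have := lift_lt hM h (hby i j a b); linarith
          · have := lift_lt hM h (hby j i b a); linarith
        · exact noncross (i, a) (j, b) (by tauto) z hz1 hz2
        · exact noncross (j, b) (i, a) (by tauto) z hz2 hz1
        · rw [memW] at hz1 hz2
          have e := hz1.1.symm.trans hz2.1
          dsimp only at e
          rcases lt_or_gt_of_ne c3 with h | h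
          · have := lift_lt hM h (hbx a b); linarith
          · have := lift_lt hM h (hbx b a); linarith
    · rw [hadj] at hij
      simp only [true_iff]
      simp only [if_true, Bool.or_eq_true, Bool.and_eq_true, decide_eq_true_eq] at hij
      rcases hij with ⟨⟨⟨h1, h2⟩, h3⟩, h4⟩ | ⟨⟨⟨h1, h2⟩, h3⟩, h4⟩
      · obtain ⟨z, z1, z2⟩ := cross (i, a) (j, b) h1 h2 h3 h4
        exact ⟨z, Or.inl z1, Or.inr z2⟩
      · obtain ⟨z, z1, z2⟩ := cross (j, b) (i, a) h1 h2 h3 h4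
        exact ⟨z, Or.inr z2, Or.inl z1⟩

end

end Pool.Agent.LGam
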