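import Pool.Agent.LGam.Check

/-!
The order structure attached to a representation by L- and Gamma-shapes, its literals and its
input clauses.
-/

namespace Pool.Agent.LGam

/-- Time order `T`, vertical order `Y` (`Y i j`: `i` above `j`) and types `S` (true for an
L-shape) satisfying the constraints of a graph `adj` on `0, …, n-1`. -/
structure Sol (n : ℕ) (adj : ℕ → ℕ → Bool) (T Y : ℕ → ℕ → Prop) (S : ℕ → Prop) : Prop where
  T_anti : ∀ i j, i < n → j < n → i ≠ j → (T j i ↔ ¬ T i j)
  T_trans : ∀ i j k, i < n → j < n → k < n → i ≠ k → T i j → T j k → T i k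
  Y_anti : ∀ i j, i < n → j < n → i ≠ j → (Y j i ↔ ¬ Y i j)
  Y_trans : ∀ i j k, i < n → j < n → k < n → i ≠ k → Y i j → Y j k → Y i k
  side : ∀ i j, i < n → j < n → i ≠ j → adj i j = true → T j i → (Y j i ↔ S i)
  btw : ∀ i j k l, i < n → j < n → k < n → l < n → i ≠ j → k ≠ i → k ≠ j →
    adj i j = true → adj k i = false → adj k l = true → T j i → T k i → T i l →
    ¬ (Y j k ∧ Y k i) ∧ ¬ (Y i k ∧ Y k j)

section
variable (n : ℕ) (adj : ℕ → ℕ → Bool)

/-- value of a variable -/
def vr (T Y : ℕ → ℕ → Prop) (S : ℕ → Prop) (b : ℕ) : Prop :=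
  if b < n * n then
    (if b / n < b % n then T (b / n) (b % n)
      else if b % n < b / n then Y (b % n) (b / n) else S (b / n))
  else ∃ l, l < n ∧ (b - n * n) / n ≠ l ∧ adj ((b - n * n) / n) l = true ∧
    T ((b - n * n) % n) l

/-- value of a literal -/
def lt (T Y : ℕ → ℕ → Prop) (S : ℕ → Prop) (b : ℕ) : Prop :=
  if b < 2 * (n * n) then vr n adj T Y S b
  else if b < 2 * (n * n) + 2 * (n * n) then ¬ vr n adj T Y S (b - 2 * (n * n)) else False

theorem lt_val (T Y : ℕ → ℕ → Prop) (S : ℕ → Prop) : Val (2 * (n * n)) (lt n adj T Y S) := by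
  constructor
  · intro b hb
    unfold lt
    rw [if_neg (by omega), if_pos (by omega), if_pos hb]
    have : b + 2 * (n * n) - 2 * (n * n) = b := by omega
    rw [this]
  · intro b hb
    unfold lt
    rw [if_neg (by omega), if_neg (by omega)]
    exact id

end

/-- mask of the literal `T i j` -/
def mT (n i j : ℕ) : ℕ :=
  bif Nat.ble (Nat.succ i) j then Nat.shiftLeft 1 (n * i + j)
    else Nat.shiftLeft 1 (2 * (n * n) + (n * j + i))

/-- mask of the literal `Y i j` -/
def mY (n i j : ℕ) : ℕ :=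
  bif Nat.ble (Nat.succ i) j then Nat.shiftLeft 1 (n * j + i)
    else Nat.shiftLeft 1 (2 * (n * n) + (n * i + j))

/-- mask of `S i` -/
def mS (n i : ℕ) : ℕ := Nat.shiftLeft 1 (n * i + i)

/-- mask of `¬ S i` -/
def mnS (n i : ℕ) : ℕ := Nat.shiftLeft 1 (2 * (n * n) + (n * i + i))

/-- mask of `A k i` : some neighbour of `k` comes after `i` -/
def mA (n k i : ℕ) : ℕ := Nat.shiftLeft 1 (n * n + (n * k + i))

/-- mask of `¬ A k i` -/
def mnA (n k i : ℕ) : ℕ := Nat.shiftLeft 1 (2 * (n * n) + (n * n + (n * k + i)))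

/-- the input clauses -/
def inp (n : ℕ) (adj : ℕ → ℕ → Bool) (v w ty i j k : ℕ) : ℕ :=
  bif (Nat.ble (Nat.succ i) n && Nat.ble (Nat.succ j) n && Nat.ble (Nat.succ k) n) then
    bif Nat.beq ty 1 then
      bif (Nat.beq i j || Nat.beq j k || Nat.beq i k) then 1 ||| mS n 0 ||| mnS n 0
      else mT n j i ||| mT n k j ||| mT n i k
    else bif Nat.beq ty 2 then
      bif (Nat.beq i j || Nat.beq j k || Nat.beq i k) then 1 ||| mS n 0 ||| mnS n 0
      else mY n j i ||| mY n k j ||| mY n i k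
    else bif Nat.beq ty 3 then
      bif (Nat.beq i j || !(adj i j)) then mS n 0 ||| mnS n 0
      else mT n i j ||| mY n i j ||| mS n i
    else bif Nat.beq ty 4 then
      bif (Nat.beq i j || !(adj i j)) then mS n 0 ||| mnS n 0
      else mT n i j ||| mY n j i ||| mnS n i
    else bif Nat.beq ty 5 then
      bif (Nat.beq i j || Nat.beq k j || !(adj k j)) then mS n 0 ||| mnS n 0
      else mT n j i ||| mA n k i
    else bif Nat.beq ty 6 then
      bif (Nat.beq i j || Nat.beq k i || Nat.beq k j || !(adj i j) || adj k i) then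
        mS n 0 ||| mnS n 0
      else mT n i j ||| mT n i k ||| mnA n k i ||| mY n k j ||| mY n i k
    else bif Nat.beq ty 7 then
      bif (Nat.beq i j || Nat.beq k i || Nat.beq k j || !(adj i j) || adj k i) then
        mS n 0 ||| mnS n 0
      else mT n i j ||| mT n i k ||| mnA n k i ||| mY n k i ||| mY n j k
    else mY n v w
  else mS n 0 ||| mnS n 0

theorem sat_or (φ : ℕ → Prop) (a b : ℕ) : Sat φ (a ||| b) ↔ Sat φ a ∨ Sat φ b := by
  unfold Sat
  constructor
  · rintro ⟨c, hc, h⟩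
    rw [Nat.testBit_or, Bool.or_eq_true] at hc
    rcases hc with hc | hc
    · exact Or.inl ⟨c, hc, h⟩
    · exact Or.inr ⟨c, hc, h⟩
  · rintro (⟨c, hc, h⟩ | ⟨c, hc, h⟩)
    · exact ⟨c, by rw [Nat.testBit_or, hc]; rfl, h⟩
    · exact ⟨c, by rw [Nat.testBit_or, hc, Bool.or_true], h⟩

theorem sat_single (φ : ℕ → Prop) (b : ℕ) : Sat φ (Nat.shiftLeft 1 b) ↔ φ b := by
  have e : Nat.shiftLeft 1 b = 2 ^ b := by
    have : Nat.shiftLeft 1 b = 1 <<< b := rfl
    rw [this, Nat.one_shiftLeft]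
  rw [e]
  unfold Sat
  constructor
  · rintro ⟨c, hc, h⟩
    rw [Nat.testBit_two_pow] at hc
    simp at hc
    rw [hc]; exact h
  · intro h
    exact ⟨b, by rw [Nat.testBit_two_pow]; simp, h⟩

section
variable {n : ℕ} {adj : ℕ → ℕ → Bool} {T Y : ℕ → ℕ → Prop} {S : ℕ → Prop}

theorem idx_lt {n p q : ℕ} (hp : p < n) (hq : q < n) : n * p + q < n * n := by
  have : n * p + n ≤ n * n := by
    calc n * p + n = n * (p + 1) := by ring
      _ ≤ n * n := Nat.mul_le_mul_left _ hp
  omega

theorem idx_div {n p q : ℕ} (hq : q < n) : (n * p + q) / n = p := by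
  rw [Nat.mul_add_div (by omega), Nat.div_eq_of_lt hq, Nat.add_zero]

theorem idx_mod {n p q : ℕ} (hq : q < n) : (n * p + q) % n = q := by
  rw [Nat.mul_add_mod, Nat.mod_eq_of_lt hq]

theorem lt_pos {b : ℕ} (hb : b < n * n + n * n) : lt n adj T Y S b ↔ vr n adj T Y S b := by
  unfold lt
  rw [if_pos (by omega)]

theorem lt_neg {b : ℕ} (hb : b < n * n + n * n) :
    lt n adj T Y S (2 * (n * n) + b) ↔ ¬ vr n adj T Y S b := by
  unfold lt
  rw [if_neg (by omega), if_pos (by omega)]
  have : 2 * (n * n) + b - 2 * (n * n) = b := by omega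
  rw [this]

theorem vr_T {i j : ℕ} (hi : i < n) (hj : j < n) (hij : i < j) :
    vr n adj T Y S (n * i + j) ↔ T i j := by
  unfold vr
  rw [if_pos (idx_lt hi hj), idx_div hj, idx_mod hj, if_pos hij]

theorem vr_Y {i j : ℕ} (hi : i < n) (hj : j < n) (hij : i < j) :
    vr n adj T Y S (n * j + i) ↔ Y i j := by
  unfold vr
  rw [if_pos (idx_lt hj hi), idx_div hi, idx_mod hi, if_neg (by omega), if_pos hij]

theorem vr_S {i : ℕ} (hi : i < n) : vr n adj T Y S (n * i + i) ↔ S i := by
  unfold vr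
  rw [if_pos (idx_lt hi hi), idx_div hi, idx_mod hi, if_neg (by omega), if_neg (by omega)]

theorem vr_A {k i : ℕ} (hi : i < n) :
    vr n adj T Y S (n * n + (n * k + i)) ↔ ∃ l, l < n ∧ k ≠ l ∧ adj k l = true ∧ T i l := by
  unfold vr
  rw [if_neg (by omega)]
  have : n * n + (n * k + i) - n * n = n * k + i := by omega
  rw [this, idx_div hi, idx_mod hi]

theorem sat_mT (h : Sol n adj T Y S) {i j : ℕ} (hi : i < n) (hj : j < n) (hij : i ≠ j) :
    Sat (lt n adj T Y S) (mT n i j) ↔ T i j := by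
  unfold mT
  rcases hb : Nat.ble (Nat.succ i) j with _ | _
  · have h1 : j < i := by
      have : ¬ (i + 1 ≤ j) := by
        intro h2
        have := Nat.ble_eq_true_of_le h2
        rw [this] at hb
        exact absurd hb (by simp)
      omega
    have hlt := idx_lt hj hi
    rw [cond_false, sat_single, lt_neg (by omega), vr_T hj hi h1]
    exact (h.T_anti j i hj hi (by omega)).symm
  · have h1 : i < j := Nat.le_of_ble_eq_true hb
    have hlt := idx_lt hi hj
    rw [cond_true, sat_single, lt_pos (by omega), vr_T hi hj h1]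

theorem sat_mY (h : Sol n adj T Y S) {i j : ℕ} (hi : i < n) (hj : j < n) (hij : i ≠ j) :
    Sat (lt n adj T Y S) (mY n i j) ↔ Y i j := by
  unfold mY
  rcases hb : Nat.ble (Nat.succ i) j with _ | _
  · have h1 : j < i := by
      have : ¬ (i + 1 ≤ j) := by
        intro h2
        have := Nat.ble_eq_true_of_le h2
        rw [this] at hb
        exact absurd hb (by simp)
      omega
    have hlt := idx_lt hi hj
    rw [cond_false, sat_single, lt_neg (by omega), vr_Y hj hi h1]
    exact (h.Y_anti j i hj hi (by omega)).symm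
  · have h1 : i < j := Nat.le_of_ble_eq_true hb
    have hlt := idx_lt hj hi
    rw [cond_true, sat_single, lt_pos (by omega), vr_Y hi hj h1]

theorem sat_mS {i : ℕ} (hi : i < n) : Sat (lt n adj T Y S) (mS n i) ↔ S i := by
  have hlt := idx_lt hi hi
  unfold mS
  rw [sat_single, lt_pos (by omega), vr_S hi]

theorem sat_mnS {i : ℕ} (hi : i < n) : Sat (lt n adj T Y S) (mnS n i) ↔ ¬ S i := by
  have hlt := idx_lt hi hi
  unfold mnS
  rw [sat_single, lt_neg (by omega), vr_S hi]

theorem sat_mA {k i : ℕ} (hk : k < n) (hi : i < n) :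
    Sat (lt n adj T Y S) (mA n k i) ↔ ∃ l, l < n ∧ k ≠ l ∧ adj k l = true ∧ T i l := by
  have hlt := idx_lt hk hi
  unfold mA
  rw [sat_single, lt_pos (by omega), vr_A hi]

theorem sat_mnA {k i : ℕ} (hk : k < n) (hi : i < n) :
    Sat (lt n adj T Y S) (mnA n k i) ↔ ¬ ∃ l, l < n ∧ k ≠ l ∧ adj k l = true ∧ T i l := by
  have hlt := idx_lt hk hi
  unfold mnA
  rw [sat_single, lt_neg (by omega), vr_A hi]

theorem sat_triv (hn : 0 < n) : Sat (lt n adj T Y S) (mS n 0 ||| mnS n 0) := by
  rw [sat_or, sat_mS hn, sat_mnS hn]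
  exact em _

theorem sat_triv1 (hn : 0 < n) : Sat (lt n adj T Y S) (1 ||| mS n 0 ||| mnS n 0) := by
  rw [Nat.lor_assoc, sat_or]
  exact Or.inr (sat_triv hn)

theorem inp_sound (h : Sol n adj T Y S) (hn : 0 < n) {v w : ℕ} (hv : v < n) (hw : w < n)
    (hvw : v ≠ w) (hY : Y v w) (ty i j k : ℕ) :
    Sat (lt n adj T Y S) (inp n adj v w ty i j k) := by
  have hble : ∀ a, Nat.ble (Nat.succ a) n = true → a < n := fun a ha => Nat.le_of_ble_eq_true ha
  have hbeq : ∀ a b, Nat.beq a b = false → a ≠ b := by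
    intro a b hab e
    subst e
    rw [Nat.beq_refl] at hab
    exact absurd hab (by simp)
  unfold inp
  rcases hr : (Nat.ble (Nat.succ i) n && Nat.ble (Nat.succ j) n && Nat.ble (Nat.succ k) n)
    with _ | _
  · rw [cond_false]; exact sat_triv hn
  rw [cond_true]
  rw [Bool.and_eq_true, Bool.and_eq_true] at hr
  obtain ⟨⟨hi, hj⟩, hk⟩ := hr
  have hi := hble i hi
  have hj := hble j hj
  have hk := hble k hk
  rcases Nat.beq ty 1 with _ | _
  swap
  · rw [cond_true]
    rcases hc : (Nat.beq i j || Nat.beq j k || Nat.beq i k) with _ | _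
    swap
    · rw [cond_true]; exact sat_triv1 hn
    rw [cond_false]
    rw [Bool.or_eq_false_iff, Bool.or_eq_false_iff] at hc
    have h1 := hbeq _ _ hc.1.1
    have h2 := hbeq _ _ hc.1.2
    have h3 := hbeq _ _ hc.2
    rw [sat_or, sat_or, sat_mT h hj hi h1.symm, sat_mT h hk hj h2.symm, sat_mT h hi hk h3,
      h.T_anti i j hi hj h1, h.T_anti j k hj hk h2]
    have := h.T_trans i j k hi hj hk h3
    tauto
  rw [cond_false]
  rcases Nat.beq ty 2 with _ | _
  swap
  · rw [cond_true]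
    rcases hc : (Nat.beq i j || Nat.beq j k || Nat.beq i k) with _ | _
    swap
    · rw [cond_true]; exact sat_triv1 hn
    rw [cond_false]
    rw [Bool.or_eq_false_iff, Bool.or_eq_false_iff] at hc
    have h1 := hbeq _ _ hc.1.1
    have h2 := hbeq _ _ hc.1.2
    have h3 := hbeq _ _ hc.2
    rw [sat_or, sat_or, sat_mY h hj hi h1.symm, sat_mY h hk hj h2.symm, sat_mY h hi hk h3,
      h.Y_anti i j hi hj h1, h.Y_anti j k hj hk h2]
    have := h.Y_trans i j k hi hj hk h3
    tauto
  rw [cond_false]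
  rcases Nat.beq ty 3 with _ | _
  swap
  · rw [cond_true]
    rcases hc : (Nat.beq i j || !(adj i j)) with _ | _
    swap
    · rw [cond_true]; exact sat_triv hn
    rw [cond_false]
    rw [Bool.or_eq_false_iff, Bool.not_eq_false'] at hc
    have h1 := hbeq _ _ hc.1
    rw [sat_or, sat_or, sat_mT h hi hj h1, sat_mY h hi hj h1, sat_mS hi]
    have h2 := h.side i j hi hj h1 hc.2
    rw [h.T_anti i j hi hj h1, h.Y_anti i j hi hj h1] at h2
    tauto
  rw [cond_false]
  rcases Nat.beq ty 4 with _ | _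
  swap
  · rw [cond_true]
    rcases hc : (Nat.beq i j || !(adj i j)) with _ | _
    swap
    · rw [cond_true]; exact sat_triv hn
    rw [cond_false]
    rw [Bool.or_eq_false_iff, Bool.not_eq_false'] at hc
    have h1 := hbeq _ _ hc.1
    rw [sat_or, sat_or, sat_mT h hi hj h1, sat_mY h hj hi h1.symm, sat_mnS hi]
    have h2 := h.side i j hi hj h1 hc.2
    rw [h.T_anti i j hi hj h1] at h2
    tauto
  rw [cond_false]
  rcases Nat.beq ty 5 with _ | _
  swap
  · rw [cond_true]
    rcases hc : (Nat.beq i j || Nat.beq k j || !(adj k j)) with _ | _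
    swap
    · rw [cond_true]; exact sat_triv hn
    rw [cond_false]
    rw [Bool.or_eq_false_iff, Bool.or_eq_false_iff, Bool.not_eq_false'] at hc
    have h1 := hbeq _ _ hc.1.1
    have h2 := hbeq _ _ hc.1.2
    rw [sat_or, sat_mT h hj hi h1.symm, sat_mA hk hi, h.T_anti i j hi hj h1]
    by_cases hT : T i j
    · exact Or.inr ⟨j, hj, h2, hc.2, hT⟩
    · exact Or.inl hT
  rw [cond_false]
  rcases Nat.beq ty 6 with _ | _
  swap
  · rw [cond_true]
    rcases hc : (Nat.beq i j || Nat.beq k i || Nat.beq k j || !(adj i j) || adj k i) with _ | _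
    swap
    · rw [cond_true]; exact sat_triv hn
    rw [cond_false]
    rw [Bool.or_eq_false_iff, Bool.or_eq_false_iff, Bool.or_eq_false_iff, Bool.or_eq_false_iff,
      Bool.not_eq_false'] at hc
    obtain ⟨⟨⟨⟨a1, a2⟩, a3⟩, a4⟩, a5⟩ := hc
    have h1 := hbeq _ _ a1
    have h2 := hbeq _ _ a2
    have h3 := hbeq _ _ a3
    rw [sat_or, sat_or, sat_or, sat_or, sat_mT h hi hj h1, sat_mT h hi hk h2.symm,
      sat_mnA hk hi, sat_mY h hk hj h3, sat_mY h hi hk h2.symm]
    by_contra hcon
    push Not at hcon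
    obtain ⟨⟨⟨⟨b1, b2⟩, ⟨l, hl, hkl, hadj, hT⟩⟩, b3⟩, b4⟩ := hcon
    exact (h.btw i j k l hi hj hk hl h1 h2 h3 a4 a5 hadj
      ((h.T_anti i j hi hj h1).2 b1) ((h.T_anti i k hi hk h2.symm).2 b2) hT).1
      ⟨(h.Y_anti k j hk hj h3).2 b3, (h.Y_anti i k hi hk h2.symm).2 b4⟩
  rw [cond_false]
  rcases Nat.beq ty 7 with _ | _
  swap
  · rw [cond_true]
    rcases hc : (Nat.beq i j || Nat.beq k i || Nat.beq k j || !(adj i j) || adj k i) with _ | _
    swap
    · rw [cond_true]; exact sat_triv hn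
    rw [cond_false]
    rw [Bool.or_eq_false_iff, Bool.or_eq_false_iff, Bool.or_eq_false_iff, Bool.or_eq_false_iff,
      Bool.not_eq_false'] at hc
    obtain ⟨⟨⟨⟨a1, a2⟩, a3⟩, a4⟩, a5⟩ := hc
    have h1 := hbeq _ _ a1
    have h2 := hbeq _ _ a2
    have h3 := hbeq _ _ a3
    rw [sat_or, sat_or, sat_or, sat_or, sat_mT h hi hj h1, sat_mT h hi hk h2.symm,
      sat_mnA hk hi, sat_mY h hk hi h2, sat_mY h hj hk h3.symm]
    by_contra hcon
    push Not at hcon
    obtain ⟨⟨⟨⟨b1, b2⟩, ⟨l, hl, hkl, hadj, hT⟩⟩, b3⟩, b4⟩ := hcon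
    exact (h.btw i j k l hi hj hk hl h1 h2 h3 a4 a5 hadj
      ((h.T_anti i j hi hj h1).2 b1) ((h.T_anti i k hi hk h2.symm).2 b2) hT).2
      ⟨(h.Y_anti k i hk hi h2).2 b3, (h.Y_anti j k hj hk h3.symm).2 b4⟩
  rw [cond_false, sat_mY h hv hw hvw]
  exact hY

end

/-- clause mask given by a list of literals, 12 bits each (literal plus one) -/
noncomputable def parse (fuel : ℕ) : ℕ → ℕ → ℕ :=
  Nat.rec (motive := fun _ => ℕ → ℕ → ℕ) (fun _ acc => acc)
    (fun _ ih c acc =>
      Nat.rec (motive := fun _ => ℕ) acc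
        (fun m _ => ih (Nat.shiftRight c (nat_lit 12))
          (Nat.lor acc (Nat.shiftLeft (nat_lit 1) m)))
        (Nat.land c (nat_lit 4095))) fuel

/-- adjacency coded by a number (32 bits per row) -/
def adjN (A i j : ℕ) : Bool := Nat.beq (Nat.land (Nat.shiftRight A (32 * i + j)) 1) 1

/-- the mask of a code -/
noncomputable def maskOf (n A v w c : ℕ) : ℕ :=
  bif Nat.beq (Nat.land c 15) 0 then parse 1000 (Nat.shiftRight c 4) 0
  else inp n (adjN A) v w (Nat.land c 15) (Nat.land (Nat.shiftRight c 4) 31)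
    (Nat.land (Nat.shiftRight c 9) 31) (Nat.land (Nat.shiftRight c 14) 31)

/-- the entries below `m` are input clauses -/
noncomputable def inputsOK (t : Tr) (m : ℕ) : Bool :=
  Nat.rec (motive := fun _ => Bool) true
    (fun i ih => bif Nat.beq (Nat.land (t.get i) 15) 0 then false else ih) m

theorem inputsOK_spec {t : Tr} {m : ℕ} (h : inputsOK t m = true) :
    ∀ i, i < m → Nat.beq (Nat.land (t.get i) 15) 0 = false := by
  induction m with
  | zero => intro i hi; omega
  | succ m ih =>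
    intro i hi
    have e : inputsOK t (m + 1) =
      bif Nat.beq (Nat.land (t.get m) 15) 0 then false else inputsOK t m := rfl
    rw [e] at h
    rcases hb : Nat.beq (Nat.land (t.get m) 15) 0 with _ | _
    · rw [hb, cond_false] at h
      by_cases him : i < m
      · exact ih h i him
      · have : i = m := by omega
        rw [this]; exact hb
    · rw [hb, cond_true] at h
      exact absurd h (by simp)

theorem base_sound {n A v w : ℕ} {T Y : ℕ → ℕ → Prop} {S : ℕ → Prop}
    (h : Sol n (adjN A) T Y S) (hn : 0 < n) (hv : v < n) (hw : w < n)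
    (hvw : v ≠ w) (hY : Y v w) {t : Tr} {m : ℕ} (ht : inputsOK t m = true) :
    ∀ i, i < m → Sat (lt n (adjN A) T Y S) (maskOf n A v w (t.get i)) := by
  intro i hi
  unfold maskOf
  rw [inputsOK_spec ht i hi, cond_false]
  exact inp_sound h hn hv hw hvw hY _ _ _ _

end Pool.Agent.LGam
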