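import Pool.Agent.LGam.Geo
import Pool.Agent.LGam.Geo2
import Pool.Agent.LGam.Data

/-!
The base graph: adjacency, a segment representation and a grid path representation.
-/

namespace Pool.Agent.LGam

/-- coordinates -/
def sx1 : List ℤ := [73510, -428790, 45690, 13040, 7470, 434580, -163470, 84540, -4680, -36940, 320, -39010, -2920, -3460, 82740, 94840, 18060, 129280, -14010, 1070]

/-- coordinates -/
def sy1 : List ℤ := [-66060, 42210, -14580, -37400, -28690, -736480, -419790, -51560, -79180, -74380, -18350, -335420, -37450, -23410, -55690, -70570, -33760, -86940, 123720, -75010]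

/-- coordinates -/
def sx2 : List ℤ := [-5780, 163290, -6420, 4840, -124840, -167370, 49480, -7020, -3890, 10640, -43580, -29030, 7350, 53530, -24620, -316130, -3770, -225900, -20840, -3860]

/-- coordinates -/
def sy2 : List ℤ := [-12130, 29850, -22350, 17000, 50870, 240540, 47140, -61100, -2190, 19470, 88960, 348280, 36170, 188150, -16440, 10070, 142810, 71820, 113030, -12890]

/-- coordinates -/
def gX : List ℤ := [6, 2, 24, 12, 4, 36, 22, 30, 32, 20, 8, 0, 10, 16, 26, 18, 14, 28, 38, 34]

/-- coordinates -/
def gY : List ℤ := [16, 14, 6, 24, 2, 30, 8, 4, 26, 20, 12, 28, 0, 22, 32, 34, 18, 36, 38, 10]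

/-- coordinates -/
def gC : List ℤ := [35, 23, -1, 29, 27, -1, 33, 19, 3, 3, 13, 23, 37, 7, 19, 35, 27, -1, 37, 3]

/-- coordinates -/
def gD : List ℤ := [27, 37, 31, 15, 35, -1, 35, 37, 31, 37, 29, 37, 21, -1, -1, 25, 11, -1, 37, 35]

/-- number of copies of every vertex -/
def kk : ℕ := 14

theorem adj_symm : ∀ i j, i < nn → j < nn → adjN AA i j = adjN AA j i := by
  have h : ∀ i < nn, ∀ j < nn, adjN AA i j = adjN AA j i := by decide +kernel
  exact fun i j hi hj => h i hi j hj

theorem adj_irr : ∀ i, i < nn → adjN AA i i = false := by decide +kernel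

/-- the graph of the theorem -/
def GG : SimpleGraph (Fin nn × Fin kk) := blow nn kk (adjN AA) adj_symm adj_irr

theorem seg_check : ∀ i < nn, ∀ j < nn, segOK kk (adjN AA) (fun i => sx1.getD i 0)
    (fun i => sy1.getD i 0) (fun i => sx2.getD i 0) (fun i => sy2.getD i 0) i j = true := by
  decide +kernel

theorem b1_check : ∀ i < nn, ∀ j < nn, b1OK (adjN AA) (fun i => gX.getD i 0)
    (fun i => gY.getD i 0) (fun i => gC.getD i 0) (fun i => gD.getD i 0) i j = true := by
  decide +kernel

theorem GG_seg : InSEG GG := blow_seg adj_symm adj_irr _ _ _ _ seg_check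

theorem GG_b1 : InB1VPG GG := blow_b1 adj_symm adj_irr _ _ _ _ b1_check

theorem deg_check : ∀ i : Fin nn, ((Finset.univ : Finset (Fin nn)).filter
    (fun j : Fin nn => adjN AA i j = true)).card < kk := by
  decide +kernel

end Pool.Agent.LGam
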