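import Pool.Agent.LGam.Defs
import Pool.Agent.LGam.Inp

/-!
From a representation by L- and Gamma-shapes of a blow-up of a graph to its order structure.
-/

namespace Pool.Agent.LGam

theorem mem_hseg {a b c : ℝ} (hac : a ≤ c) (p : ℝ × ℝ) :
    p ∈ segment ℝ (a, b) (c, b) ↔ p.2 = b ∧ a ≤ p.1 ∧ p.1 ≤ c := by
  rw [← Prod.image_mk_segment_left, segment_eq_Icc hac]
  constructor
  · rintro ⟨z, hz, rfl⟩
    exact ⟨rfl, hz.1, hz.2⟩
  · rintro ⟨h1, h2, h3⟩
    exact ⟨p.1, ⟨h2, h3⟩, by rw [← h1]⟩

theorem mem_vseg {a b d : ℝ} (p : ℝ × ℝ) :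
    p ∈ segment ℝ (a, b) (a, d) ↔ p.1 = a ∧ min b d ≤ p.2 ∧ p.2 ≤ max b d := by
  rw [← Prod.image_mk_segment_right, segment_eq_uIcc]
  constructor
  · rintro ⟨z, hz, rfl⟩
    exact ⟨rfl, hz.1, hz.2⟩
  · rintro ⟨h1, h2, h3⟩
    exact ⟨p.2, ⟨h2, h3⟩, by rw [← h1]⟩

/-- parameters of a shape: corner `(x, y)`, right end `r`, vertical tip `t` -/
structure Shape where
  x : ℝ
  y : ℝ
  r : ℝ
  t : ℝ
  up : Prop
  hxr : x < r
  hup : up → y < t
  hdn : ¬ up → t < y

namespace Shape

/-- the point set -/
def set (s : Shape) : Set (ℝ × ℝ) :=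
  segment ℝ (s.x, s.y) (s.r, s.y) ∪ segment ℝ (s.x, s.y) (s.x, s.t)

/-- lower end of the vertical part -/
noncomputable def lo (s : Shape) : ℝ := min s.y s.t

/-- upper end of the vertical part -/
noncomputable def hi (s : Shape) : ℝ := max s.y s.t

theorem lo_le (s : Shape) : s.lo ≤ s.y := min_le_left _ _
theorem le_hi (s : Shape) : s.y ≤ s.hi := le_max_left _ _

theorem lo_up (s : Shape) (h : s.up) : s.lo = s.y := min_eq_left (s.hup h).le
theorem hi_dn (s : Shape) (h : ¬ s.up) : s.hi = s.y := max_eq_left (s.hdn h).le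

theorem mem_set (s : Shape) (p : ℝ × ℝ) :
    p ∈ s.set ↔ (p.2 = s.y ∧ s.x ≤ p.1 ∧ p.1 ≤ s.r) ∨ (p.1 = s.x ∧ s.lo ≤ p.2 ∧ p.2 ≤ s.hi) := by
  unfold set
  rw [Set.mem_union, mem_hseg s.hxr.le, mem_vseg]
  rfl

theorem meet_lt (s s' : Shape) (h : s.x < s'.x) :
    (s.set ∩ s'.set).Nonempty ↔ s'.x ≤ s.r ∧ s'.lo ≤ s.y ∧ s.y ≤ s'.hi := by
  constructor
  · rintro ⟨p, hp, hp'⟩
    rw [mem_set] at hp hp'
    have := s'.lo_le
    have := s'.le_hi
    rcases hp with ⟨h1, h2, h3⟩ | ⟨h1, h2, h3⟩ <;> rcases hp' with ⟨h4, h5, h6⟩ | ⟨h4, h5, h6⟩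
    · refine ⟨by linarith, by linarith, by linarith⟩
    · refine ⟨by linarith, by linarith, by linarith⟩
    · exact absurd h5 (by linarith)
    · exact absurd h4 (by linarith)
  · rintro ⟨h1, h2, h3⟩
    refine ⟨(s'.x, s.y), ?_, ?_⟩
    · rw [mem_set]; exact Or.inl ⟨rfl, h.le, h1⟩
    · rw [mem_set]; exact Or.inr ⟨rfl, h2, h3⟩

theorem meet_eq (s s' : Shape) (h : s.x = s'.x) :
    (s.set ∩ s'.set).Nonempty ↔ s.lo ≤ s'.hi ∧ s'.lo ≤ s.hi := by
  constructor
  · rintro ⟨p, hp, hp'⟩
    rw [mem_set] at hp hp'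
    have := s'.lo_le
    have := s'.le_hi
    have := s.lo_le
    have := s.le_hi
    rcases hp with ⟨h1, h2, h3⟩ | ⟨h1, h2, h3⟩ <;> rcases hp' with ⟨h4, h5, h6⟩ | ⟨h4, h5, h6⟩
    all_goals exact ⟨by linarith, by linarith⟩
  · rintro ⟨h1, h2⟩
    have := s'.lo_le
    have := s'.le_hi
    have := s.lo_le
    have := s.le_hi
    refine ⟨(s.x, max s.lo s'.lo), ?_, ?_⟩
    · rw [mem_set]; exact Or.inr ⟨rfl, le_max_left _ _, max_le (by linarith) h2⟩
    · rw [mem_set]; exact Or.inr ⟨h, le_max_right _ _, max_le h1 (by linarith)⟩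

end Shape

theorem exists_shape {P : Set (ℝ × ℝ)} (h : IsL P ∨ IsGamma P) : ∃ s : Shape, s.set = P := by
  rcases h with ⟨a, b, c, d, h1, h2, h3⟩ | ⟨a, b, c, d, h1, h2, h3⟩
  · exact ⟨⟨a, b, c, d, True, h1, fun _ => h2, fun h => absurd trivial h⟩, h3.symm⟩
  · exact ⟨⟨a, b, c, d, False, h1, fun h => absurd h id, fun _ => h2⟩, h3.symm⟩

/-- The blow-up: every vertex of the graph `adj` on `0, …, n-1` is replaced by `k` pairwise
non-adjacent copies. -/
def blow (n k : ℕ) (adj : ℕ → ℕ → Bool)
    (hs : ∀ i j, i < n → j < n → adj i j = adj j i) (hi : ∀ i, i < n → adj i i = false) :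
    SimpleGraph (Fin n × Fin k) where
  Adj p q := adj p.1 q.1 = true
  symm := ⟨fun p q h => by rw [hs _ _ q.1.2 p.1.2]; exact h⟩
  loopless := ⟨fun p h => by
    have h' : adj p.1 p.1 = true := h
    rw [hi _ p.1.2] at h'
    exact absurd h' (by simp)⟩

section
variable {n k : ℕ} {adj : ℕ → ℕ → Bool}
  (hs : ∀ i j, i < n → j < n → adj i j = adj j i) (hi : ∀ i, i < n → adj i i = false)

/-- no two copies of `u` and two copies of a neighbour `v` have the same abscissa -/
theorem no_four {s : Fin n × Fin k → Shape}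
    (hr : Represents (blow n k adj hs hi) (fun p => (s p).set)) {u v : Fin n}
    (huv : adj u v = true) {a b c d : Fin k} (hab : a ≠ b) (hcd : c ≠ d)
    (h1 : (s (u, a)).x = (s (u, b)).x) (h2 : (s (v, c)).x = (s (v, d)).x)
    (h3 : (s (u, a)).x = (s (v, c)).x) : False := by
  have huv' : u ≠ v := by
    rintro rfl
    rw [hi _ u.2] at huv
    exact absurd huv (by simp)
  have key : ∀ a c : Fin k, (s (u, a)).x = (s (v, c)).x →
      (s (u, a)).lo ≤ (s (v, c)).hi ∧ (s (v, c)).lo ≤ (s (u, a)).hi := by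
    intro a c h
    rw [← Shape.meet_eq _ _ h]
    exact (hr (u, a) (v, c) (by intro h; exact huv' (congrArg Prod.fst h))).1 huv
  have key2 : ∀ (w : Fin n) (a b : Fin k), a ≠ b → (s (w, a)).x = (s (w, b)).x →
      ¬ ((s (w, a)).lo ≤ (s (w, b)).hi ∧ (s (w, b)).lo ≤ (s (w, a)).hi) := by
    intro w a b hab h h'
    rw [← Shape.meet_eq _ _ h] at h'
    have := (hr (w, a) (w, b) (by intro h; exact hab (congrArg Prod.snd h))).2 h'
    have h'' : adj w w = true := this
    rw [hi _ w.2] at h''
    exact absurd h'' (by simp)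
  have e1 := key a c h3
  have e2 := key a d (h3.trans h2)
  have e3 := key b c (h1.symm.trans h3)
  have e4 := key b d ((h1.symm.trans h3).trans h2)
  have e5 := key2 u a b hab h1
  have e6 := key2 v c d hcd h2
  rw [not_and_or, not_le, not_le] at e5 e6
  rcases e5 with e5 | e5 <;> rcases e6 with e6 | e6 <;> linarith [e1.1, e1.2, e2.1, e2.2, e3.1,
    e3.2, e4.1, e4.2]

/-- one can choose a copy of every vertex so that adjacent vertices get different abscissae -/
theorem exists_choice (hk : ∀ i : Fin n, ((Finset.univ : Finset (Fin n)).filter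
      (fun j : Fin n => adj i j = true)).card < k)
    {s : Fin n × Fin k → Shape}
    (hr : Represents (blow n k adj hs hi) (fun p => (s p).set)) :
    ∃ f : Fin n → Fin k, ∀ u v : Fin n, adj u v = true → (s (u, f u)).x ≠ (s (v, f v)).x := by
  classical
  -- heavy vertices
  let heavy : Fin n → Prop := fun u => ∃ a b : Fin k, a ≠ b ∧ (s (u, a)).x = (s (u, b)).x
  have main : ∀ t : Finset (Fin n), (∀ u ∈ t, ¬ heavy u) →
      ∃ f : Fin n → Fin k, ∀ u v : Fin n, (u ∈ t ∨ heavy u) → (v ∈ t ∨ heavy v) →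
        adj u v = true → (s (u, f u)).x ≠ (s (v, f v)).x := by
    intro t
    induction t using Finset.induction_on with
    | empty =>
      intro _
      have : ∀ u : Fin n, ∃ a : Fin k, heavy u → ∃ b, a ≠ b ∧ (s (u, a)).x = (s (u, b)).x := by
        intro u
        by_cases hu : heavy u
        · obtain ⟨a, b, h1, h2⟩ := hu
          exact ⟨a, fun _ => ⟨b, h1, h2⟩⟩
        · have := hk u
          exact ⟨⟨0, by omega⟩, fun h => absurd h hu⟩
      choose f hf using this
      refine ⟨f, ?_⟩
      intro u v hu hv huv heq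
      have hu : heavy u := by simpa using hu
      have hv : heavy v := by simpa using hv
      obtain ⟨b, h1, h2⟩ := hf u hu
      obtain ⟨d, h3, h4⟩ := hf v hv
      exact no_four hs hi hr huv h1 h3 h2 h4 heq
    | insert w t hw ih =>
      intro ht
      obtain ⟨f, hf⟩ := ih (fun u hu => ht u (Finset.mem_insert_of_mem hu))
      have hlw : ¬ heavy w := ht w (Finset.mem_insert_self _ _)
      -- choose a new copy for w
      have hex : ∃ a : Fin k, ∀ v : Fin n, adj w v = true → (s (w, a)).x ≠ (s (v, f v)).x := by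
        by_contra hcon
        push Not at hcon
        choose g hg using hcon
        have hinj : Function.Injective g := by
          intro a b hab
          by_contra hne
          apply hlw
          refine ⟨a, b, hne, ?_⟩
          rw [(hg a).2, (hg b).2, hab]
        have hcard := Finset.card_le_card_of_injOn (s := (Finset.univ : Finset (Fin k)))
          (t := (Finset.univ : Finset (Fin n)).filter (fun j : Fin n => adj w j = true)) g
          (fun a _ => by
            rw [Finset.coe_filter]
            exact ⟨Finset.mem_univ _, (hg a).1⟩) (fun a _ b _ h => hinj h)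
        rw [Finset.card_univ, Fintype.card_fin] at hcard
        have := hk w
        omega
      obtain ⟨a, ha⟩ := hex
      refine ⟨Function.update f w a, ?_⟩
      intro u v hu hv huv
      have hne : u ≠ v := by
        rintro rfl
        rw [hi _ u.2] at huv
        exact absurd huv (by simp)
      by_cases huw : u = w
      · subst huw
        rw [Function.update_self, Function.update_of_ne hne.symm]
        exact ha v huv
      · by_cases hvw : v = w
        · subst hvw
          rw [Function.update_self, Function.update_of_ne hne]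
          have := ha u (by rw [hs _ _ v.2 u.2]; exact huv)
          exact this.symm
        · rw [Function.update_of_ne huw, Function.update_of_ne hvw]
          refine hf u v ?_ ?_ huv
          · rcases hu with hu | hu
            · rcases Finset.mem_insert.1 hu with hu | hu
              · exact absurd hu huw
              · exact Or.inl hu
            · exact Or.inr hu
          · rcases hv with hv | hv
            · rcases Finset.mem_insert.1 hv with hv | hv
              · exact absurd hv hvw
              · exact Or.inl hv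
            · exact Or.inr hv
  obtain ⟨f, hf⟩ := main (Finset.univ.filter (fun u => ¬ heavy u)) (by simp)
  refine ⟨f, fun u v huv => hf u v ?_ ?_ huv⟩
  · by_cases h : heavy u
    · exact Or.inr h
    · exact Or.inl (by simp [h])
  · by_cases h : heavy v
    · exact Or.inr h
    · exact Or.inl (by simp [h])

include hi in
/-- the order structure of a family of shapes where adjacent shapes have distinct abscissae -/
theorem sol_of_shapes (z : Fin n → Shape)
    (hz : ∀ u v : Fin n, u ≠ v → (adj u v = true ↔ ((z u).set ∩ (z v).set).Nonempty))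
    (hd : ∀ u v : Fin n, adj u v = true → (z u).x ≠ (z v).x) :
    ∃ (T Y : ℕ → ℕ → Prop) (S : ℕ → Prop), Sol n adj T Y S := by
  classical
  rcases Nat.eq_zero_or_pos n with hn | hn
  · subst hn
    exact ⟨fun _ _ => False, fun _ _ => False, fun _ => False,
      ⟨fun i j h => absurd h (by omega), fun i j k h => absurd h (by omega),
        fun i j h => absurd h (by omega), fun i j k h => absurd h (by omega),
        fun i j h => absurd h (by omega), fun i j k l h => absurd h (by omega)⟩⟩
  have : Inhabited (Fin n) := ⟨⟨0, hn⟩⟩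
  -- extend to all naturals
  obtain ⟨w, hw⟩ : ∃ w : ℕ → Shape, ∀ i (h : i < n), w i = z ⟨i, h⟩ :=
    ⟨fun i => if h : i < n then z ⟨i, h⟩ else z default, fun i h => dif_pos h⟩
  have hz' : ∀ i j, i < n → j < n → i ≠ j →
      (adj i j = true ↔ ((w i).set ∩ (w j).set).Nonempty) := by
    intro i j h1 h2 h3
    rw [hw i h1, hw j h2]
    exact hz ⟨i, h1⟩ ⟨j, h2⟩ (by intro h; exact h3 (congrArg Fin.val h))
  have hd' : ∀ i j, i < n → j < n → adj i j = true → (w i).x ≠ (w j).x := by
    intro i j h1 h2 h3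
    rw [hw i h1, hw j h2]
    exact hd ⟨i, h1⟩ ⟨j, h2⟩ h3
  let T : ℕ → ℕ → Prop := fun i j => (w i).x < (w j).x ∨ ((w i).x = (w j).x ∧ i < j)
  let S : ℕ → Prop := fun i => (w i).up
  let Y : ℕ → ℕ → Prop := fun i j => (w j).y < (w i).y ∨
    ((w i).y = (w j).y ∧ ((T i j ∧ S j) ∨ (T j i ∧ ¬ S i)))
  have Tanti : ∀ i j, i ≠ j → (T j i ↔ ¬ T i j) := by
    intro i j hij
    simp only [T]
    rcases lt_trichotomy (w i).x (w j).x with h | h | h
    · constructor
      · rintro (h1 | ⟨h1, h2⟩)
        · linarith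
        · linarith
      · intro h1
        exact absurd (Or.inl h) h1
    · constructor
      · rintro (h1 | ⟨h1, h2⟩)
        · linarith
        · rintro (h3 | ⟨h3, h4⟩)
          · linarith
          · omega
      · intro h1
        refine Or.inr ⟨h.symm, ?_⟩
        by_contra h2
        exact h1 (Or.inr ⟨h, by omega⟩)
    · constructor
      · rintro _ (h1 | ⟨h1, h2⟩)
        · linarith
        · linarith
      · intro _
        exact Or.inl h
  have Ttrans : ∀ i j k, T i j → T j k → T i k := by
    intro i j k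
    simp only [T]
    rintro (h1 | ⟨h1, h2⟩) (h3 | ⟨h3, h4⟩)
    · exact Or.inl (h1.trans h3)
    · exact Or.inl (by linarith)
    · exact Or.inl (by linarith)
    · exact Or.inr ⟨h1.trans h3, h2.trans h4⟩
  have Tirr : ∀ i, ¬ T i i := by
    intro i
    simp only [T]
    rintro (h | ⟨_, h⟩)
    · exact lt_irrefl _ h
    · exact lt_irrefl _ h
  have Yge : ∀ i j, Y i j → (w j).y ≤ (w i).y := by
    intro i j
    simp only [Y]
    rintro (h | ⟨h, _⟩)
    · exact h.le
    · exact h.symm.le
  have Yanti : ∀ i j, i ≠ j → (Y j i ↔ ¬ Y i j) := by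
    intro i j hij
    have hT := Tanti i j hij
    simp only [Y]
    rcases lt_trichotomy (w i).y (w j).y with h | h | h
    · constructor
      · rintro _ (h1 | ⟨h1, h2⟩)
        · linarith
        · linarith
      · intro _
        exact Or.inl h
    · have h' : ¬ (w i).y < (w j).y := by linarith
      have h'' : ¬ (w j).y < (w i).y := by linarith
      have h3 : (w j).y = (w i).y := h.symm
      by_cases hij' : T i j
      · have hji : ¬ T j i := fun hc => (hT.1 hc) hij'
        simp only [hij', hji, h, lt_self_iff_false, false_and, true_and, false_or, or_false]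
      · have hji : T j i := hT.2 hij'
        simp only [hij', hji, h, lt_self_iff_false, false_and, true_and, false_or, or_false,
          not_not]
    · constructor
      · rintro (h1 | ⟨h1, h2⟩)
        · linarith
        · linarith
      · intro h1
        exact absurd (Or.inl h) h1
  have Ytrans : ∀ i j k, i ≠ k → Y i j → Y j k → Y i k := by
    intro i j k hik h1 h2
    have g1 := Yge _ _ h1
    have g2 := Yge _ _ h2
    simp only [Y] at h1 h2 ⊢
    rcases lt_or_eq_of_le (g2.trans g1) with h | h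
    · exact Or.inl h
    · refine Or.inr ⟨h.symm, ?_⟩
      have e1 : (w i).y = (w j).y := by linarith
      have e2 : (w j).y = (w k).y := by linarith
      have h1' : (T i j ∧ S j) ∨ (T j i ∧ ¬ S i) := by
        rcases h1 with h1 | ⟨_, h1⟩
        · linarith
        · exact h1
      have h2' : (T j k ∧ S k) ∨ (T k j ∧ ¬ S j) := by
        rcases h2 with h2 | ⟨_, h2⟩
        · linarith
        · exact h2
      rcases h1' with ⟨a1, a2⟩ | ⟨a1, a2⟩ <;> rcases h2' with ⟨b1, b2⟩ | ⟨b1, b2⟩
      · exact Or.inl ⟨Ttrans _ _ _ a1 b1, b2⟩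
      · exact absurd a2 b2
      · by_cases hT : T i k
        · exact Or.inl ⟨hT, b2⟩
        · exact Or.inr ⟨(Tanti i k hik).2 hT, a2⟩
      · exact Or.inr ⟨Ttrans _ _ _ b1 a1, a2⟩
  refine ⟨T, Y, S, ?_⟩
  constructor
  · intro i j _ _ h
    exact Tanti i j h
  · intro i j k _ _ _ _ h1 h2
    exact Ttrans i j k h1 h2
  · intro i j _ _ h
    exact Yanti i j h
  · intro i j k _ _ _ h h1 h2
    exact Ytrans i j k h h1 h2
  · -- side
    intro i j h1 h2 h3 h4 h5
    have hx : (w j).x < (w i).x := by
      have := hd' i j h1 h2 h4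
      rcases h5 with h5 | ⟨h5, _⟩
      · exact h5
      · exact absurd h5.symm this
    have hm := (hz' i j h1 h2 h3).1 h4
    rw [Set.inter_comm, Shape.meet_lt _ _ hx] at hm
    obtain ⟨_, m2, m3⟩ := hm
    have hTij : ¬ T i j := by
      intro hc
      exact (Tanti i j h3).1 h5 hc
    by_cases hS : (w i).up
    · rw [Shape.lo_up _ hS] at m2
      constructor
      · intro _; exact hS
      · intro _
        rcases lt_or_eq_of_le m2 with m | m
        · exact Or.inl m
        · exact Or.inr ⟨m.symm, Or.inl ⟨h5, hS⟩⟩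
    · rw [Shape.hi_dn _ hS] at m3
      constructor
      · rintro (h6 | ⟨_, (⟨_, h6⟩ | ⟨h6, _⟩)⟩)
        · linarith
        · exact h6
        · exact absurd h6 hTij
      · intro hc
        exact absurd hc hS
  · -- betweenness
    intro i j k l hi' hj' hk' hl' hij hki hkj hadj hnadj hkl hTji hTki hTil
    have hx : (w j).x < (w i).x := by
      have := hd' i j hi' hj' hadj
      rcases hTji with h5 | ⟨h5, _⟩
      · exact h5
      · exact absurd h5.symm this
    have hm := (hz' i j hi' hj' hij).1 hadj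
    rw [Set.inter_comm, Shape.meet_lt _ _ hx] at hm
    obtain ⟨_, m2, m3⟩ := hm
    have hkl' : k ≠ l := by
      rintro rfl
      rw [hi _ hk'] at hkl
      exact absurd hkl (by simp)
    have hTkl : T k l := Ttrans _ _ _ hTki hTil
    have hxkl : (w k).x < (w l).x := by
      have := hd' k l hk' hl' hkl
      rcases hTkl with h5 | ⟨h5, _⟩
      · exact h5
      · exact absurd h5 this
    have hm' := (hz' k l hk' hl' hkl').1 hkl
    rw [Shape.meet_lt _ _ hxkl] at hm'
    have hxil : (w i).x ≤ (w l).x := by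
      rcases hTil with h5 | ⟨h5, _⟩
      · exact h5.le
      · exact h5.le
    have hnm : ¬ ((w k).set ∩ (w i).set).Nonempty := by
      intro hc
      have := (hz' k i hk' hi' hki).2 hc
      rw [hnadj] at this
      exact absurd this (by simp)
    have hout : ¬ ((w i).lo ≤ (w k).y ∧ (w k).y ≤ (w i).hi) := by
      rintro ⟨q1, q2⟩
      apply hnm
      rcases hTki with h5 | ⟨h5, _⟩
      · rw [Shape.meet_lt _ _ h5]
        exact ⟨hxil.trans hm'.1, q1, q2⟩
      · rw [Shape.meet_eq _ _ h5]
        exact ⟨(Shape.lo_le _).trans q2, q1.trans (Shape.le_hi _)⟩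
    have l1 := (w i).lo_le
    have l2 := (w i).le_hi
    constructor
    · rintro ⟨y1, y2⟩
      have := Yge _ _ y1
      have := Yge _ _ y2
      exact hout ⟨by linarith, by linarith⟩
    · rintro ⟨y1, y2⟩
      have := Yge _ _ y1
      have := Yge _ _ y2
      exact hout ⟨by linarith, by linarith⟩

/-- a representation of the blow-up gives an order structure for the base graph -/
theorem sol_of_rep (hk : ∀ i : Fin n, ((Finset.univ : Finset (Fin n)).filter
      (fun j : Fin n => adj i j = true)).card < k)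
    (h : InLGamma (blow n k adj hs hi)) :
    ∃ (T Y : ℕ → ℕ → Prop) (S : ℕ → Prop), Sol n adj T Y S := by
  obtain ⟨P, hP, hr⟩ := h
  have : ∀ v, ∃ s : Shape, s.set = P v := fun v => exists_shape (hP v)
  choose s hsP using this
  have hr' : Represents (blow n k adj hs hi) (fun p => (s p).set) := by
    intro u v huv
    simp only [hsP]
    exact hr u v huv
  obtain ⟨f, hf⟩ := exists_choice hs hi hk hr'
  refine sol_of_shapes hi (fun u => s (u, f u)) ?_ hf
  intro u v huv
  exact hr' (u, f u) (v, f v) (by intro h; exact huv (congrArg Prod.fst h))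

end

/-- turning the picture upside down -/
theorem Sol.flip {n : ℕ} {adj : ℕ → ℕ → Bool} {T Y : ℕ → ℕ → Prop} {S : ℕ → Prop}
    (h : Sol n adj T Y S) : Sol n adj T (fun i j => Y j i) (fun i => ¬ S i) := by
  constructor
  · exact h.T_anti
  · exact h.T_trans
  · intro i j h1 h2 h3
    exact h.Y_anti j i h2 h1 h3.symm
  · intro i j k h1 h2 h3 h4 h5 h6
    exact h.Y_trans k j i h3 h2 h1 h4.symm h6 h5
  · intro i j h1 h2 h3 h4 h5
    have a := h.side i j h1 h2 h3 h4 h5
    have b := h.Y_anti i j h1 h2 h3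
    tauto
  · intro i j k l h1 h2 h3 h4 h5 h6 h7 h8 h9 h10 h11 h12 h13
    have a := h.btw i j k l h1 h2 h3 h4 h5 h6 h7 h8 h9 h10 h11 h12 h13
    exact ⟨fun q => a.2 ⟨q.2, q.1⟩, fun q => a.1 ⟨q.2, q.1⟩⟩

/-- one may prescribe one vertical comparison -/
theorem exists_sol_above {n : ℕ} {adj : ℕ → ℕ → Bool} {v w : ℕ} (hv : v < n) (hw : w < n)
    (hvw : v ≠ w) (h : ∃ (T Y : ℕ → ℕ → Prop) (S : ℕ → Prop), Sol n adj T Y S) :
    ∃ (T Y : ℕ → ℕ → Prop) (S : ℕ → Prop), Sol n adj T Y S ∧ Y v w := by
  obtain ⟨T, Y, S, h⟩ := h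
  by_cases hY : Y v w
  · exact ⟨T, Y, S, h, hY⟩
  · exact ⟨T, _, _, h.flip, (h.Y_anti v w hv hw hvw).2 hY⟩

end Pool.Agent.LGam
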